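import Mathlib

/-! Ultrapowers: definitions for the uniform version. -/

namespace Pool.Agent.Lib.MPb0e841.UN

open Filter

/-- The quotient map from sequences to the ultrapower. -/
noncomputable abbrev q (U : Ultrafilter ℕ) (A : Type) [CommRing A] :
    (ℕ → A) →+* Germ (U : Filter ℕ) A := Germ.coeRingHom (U : Filter ℕ)

lemma q_eq_iff (U : Ultrafilter ℕ) {A : Type} [CommRing A] (f g : ℕ → A) :
    q U A f = q U A g ↔ ∀ᶠ j in (U : Filter ℕ), f j = g j := Germ.coe_eq

lemma q_eq_zero_iff (U : Ultrafilter ℕ) {A : Type} [CommRing A] (f : ℕ → A) :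
    q U A f = 0 ↔ ∀ᶠ j in (U : Filter ℕ), f j = 0 := by
  rw [← map_zero (q U A), q_eq_iff]
  rfl

lemma q_surj (U : Ultrafilter ℕ) {A : Type} [CommRing A] (x : Germ (U : Filter ℕ) A) :
    ∃ f : ℕ → A, q U A f = x := by
  induction x using Germ.inductionOn with
  | h f => exact ⟨f, rfl⟩

/-- The ring homomorphism of ultrapowers induced by a ring homomorphism. -/
noncomputable def germMap (U : Ultrafilter ℕ) {A B : Type} [CommRing A] [CommRing B]
    (f : A →+* B) : Germ (U : Filter ℕ) A →+* Germ (U : Filter ℕ) B where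
  toFun := Germ.map f
  map_one' := by
    change Germ.map f ((1 : ℕ → A) : Germ (U : Filter ℕ) A) = ((1 : ℕ → B) : Germ (U : Filter ℕ) B)
    rw [Germ.map_coe]
    congr 1
    funext j
    simp
  map_zero' := by
    change Germ.map f ((0 : ℕ → A) : Germ (U : Filter ℕ) A) = ((0 : ℕ → B) : Germ (U : Filter ℕ) B)
    rw [Germ.map_coe]
    congr 1
    funext j
    simp
  map_add' x y := by
    induction x using Germ.inductionOn with
    | h x =>
      induction y using Germ.inductionOn with
      | h y =>
        rw [← Germ.coe_add, Germ.map_coe, Germ.map_coe, Germ.map_coe, ← Germ.coe_add]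
        congr 1
        funext j
        simp
  map_mul' x y := by
    induction x using Germ.inductionOn with
    | h x =>
      induction y using Germ.inductionOn with
      | h y =>
        rw [← Germ.coe_mul, Germ.map_coe, Germ.map_coe, Germ.map_coe, ← Germ.coe_mul]
        congr 1
        funext j
        simp

lemma germMap_q (U : Ultrafilter ℕ) {A B : Type} [CommRing A] [CommRing B]
    (f : A →+* B) (u : ℕ → A) : germMap U f (q U A u) = q U B (fun j => f (u j)) := rfl

/-- Polynomially bounded sequences of integers (relative to `N`). -/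
def Bdd (N : ℕ → ℕ) (z : ℕ → ℤ) : Prop := ∃ C : ℕ, ∀ j, |z j| ≤ (N j : ℤ) ^ C

end Pool.Agent.Lib.MPb0e841.UN
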