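import Mathlib
import Pool.Agent.Lib.MP_b0e841_co.UN.Defs

/-! Ultrapowers of an algebraically closed field are algebraically closed. -/

namespace Pool.Agent.Lib.MPb0e841.UN

open Filter Polynomial

private lemma exists_root_seq (n : ℕ) (hn : 0 < n) (c : ℕ → ℕ → AlgebraicClosure ℚ) :
    ∃ r : ℕ → AlgebraicClosure ℚ,
      ∀ j, r j ^ n + ∑ i ∈ Finset.range n, c i j * r j ^ i = 0 := by
  have key : ∀ j, ∃ x : AlgebraicClosure ℚ,
      x ^ n + ∑ i ∈ Finset.range n, c i j * x ^ i = 0 := by
    intro j
    set P : Polynomial (AlgebraicClosure ℚ) :=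
      X ^ n + ∑ i ∈ Finset.range n, C (c i j) * X ^ i with hP
    have hdeg : P.degree = (n : WithBot ℕ) := by
      rw [hP, Polynomial.degree_add_eq_left_of_degree_lt, Polynomial.degree_X_pow]
      rw [Polynomial.degree_X_pow]
      refine lt_of_le_of_lt (Polynomial.degree_sum_le _ _) ?_
      rw [Finset.sup_lt_iff (by exact WithBot.bot_lt_coe n)]
      intro i hi
      refine lt_of_le_of_lt (Polynomial.degree_C_mul_X_pow_le i (c i j)) ?_
      exact_mod_cast (Finset.mem_range.mp hi)
    obtain ⟨x, hx⟩ := IsAlgClosed.exists_root P (by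
      rw [hdeg]
      exact_mod_cast hn.ne')
    refine ⟨x, ?_⟩
    have : P.eval x = 0 := hx
    rw [hP] at this
    simpa [Polynomial.eval_finsetSum] using this
  choose r hr using key
  exact ⟨r, hr⟩

/-- An ultrapower (over `ℕ`) of the field of algebraic numbers is algebraically closed. -/
theorem isAlgClosed_germ (U : Ultrafilter ℕ) :
    IsAlgClosed (Germ (U : Filter ℕ) (AlgebraicClosure ℚ)) := by
  refine IsAlgClosed.of_exists_root _ ?_
  intro p hp hirr
  have hn : 0 < p.natDegree := hirr.natDegree_pos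
  choose c hc using fun i : ℕ => q_surj U (p.coeff i)
  obtain ⟨r, hr⟩ := exists_root_seq p.natDegree hn c
  refine ⟨q U _ r, ?_⟩
  rw [Polynomial.eval_eq_sum_range, Finset.sum_range_succ]
  have h1 : p.coeff p.natDegree = 1 := hp
  rw [h1, one_mul]
  have h2 : (∑ i ∈ Finset.range p.natDegree, p.coeff i * (q U _ r) ^ i)
      = q U _ (∑ i ∈ Finset.range p.natDegree, c i * r ^ i) := by
    rw [map_sum]
    refine Finset.sum_congr rfl fun i _ => ?_
    rw [map_mul, map_pow, hc]
  rw [h2, ← map_pow, ← map_add, q_eq_zero_iff]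
  refine Filter.Eventually.of_forall fun j => ?_
  have := hr j
  simp only [Pi.add_apply, Finset.sum_apply, Pi.mul_apply, Pi.pow_apply]
  rw [add_comm]
  exact this

end Pool.Agent.Lib.MPb0e841.UN
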