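import Mathlib
import Pool.Agent.Lib.MP_b0e841_co.UN.Defs

/-! Elements algebraic over the bounded subfield of the ultrapower. -/

namespace Pool.Agent.Lib.MPb0e841.UN

open Filter

private lemma coeff_sum_aux (d : ℕ) (c : ℕ → ℤ) (i : ℕ) :
    (∑ l ∈ Finset.range (d + 1), Polynomial.C (c l) * Polynomial.X ^ l).coeff i
      = if i ∈ Finset.range (d + 1) then c i else 0 := by
  rw [Polynomial.finsetSum_coeff]
  simp only [Polynomial.coeff_C_mul, Polynomial.coeff_X_pow, mul_ite, mul_one, mul_zero]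
  rw [Finset.sum_ite_eq]

/-- Elements algebraic over the bounded subfield are roots of small integer polynomials. -/
theorem exists_poly (U : Ultrafilter ℕ) (N : ℕ → ℕ) (hN : ∀ j, 2 ≤ N j) (k : Type) [Field k]
    [Algebra k (Germ (U : Filter ℕ) (AlgebraicClosure ℚ))]
    (f : k →+* Germ (U : Filter ℕ) ℚ)
    (hf : ∀ x, algebraMap k (Germ (U : Filter ℕ) (AlgebraicClosure ℚ)) x
      = germMap U (algebraMap ℚ (AlgebraicClosure ℚ)) (f x))
    (hk : ∀ x : k, ∃ z w : ℕ → ℤ, Bdd N z ∧ Bdd N w ∧ (∀ j, w j ≠ 0) ∧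
        f x = q U ℚ (fun j => (z j : ℚ) / (w j : ℚ)))
    (h : ℕ → AlgebraicClosure ℚ) (ha : IsAlgebraic k (q U (AlgebraicClosure ℚ) h)) :
    ∃ C d : ℕ, ∀ᶠ j in (U : Filter ℕ), ∃ P : Polynomial ℤ, P ≠ 0 ∧ P.natDegree ≤ d ∧
      (∀ i, |P.coeff i| ≤ (N j : ℤ) ^ C) ∧ Polynomial.aeval (h j) P = 0 := by
  classical
  obtain ⟨p, hp0, hp⟩ := ha
  choose z w hz hw hw0 hfx using hk
  have hz' : ∀ x, ∃ C : ℕ, ∀ j, |z x j| ≤ (N j : ℤ) ^ C := hz
  have hw' : ∀ x, ∃ C : ℕ, ∀ j, |w x j| ≤ (N j : ℤ) ^ C := hw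
  choose Cz hCz using hz'
  choose Cw hCw using hw'
  have hN1 : ∀ j, (1 : ℤ) ≤ (N j : ℤ) := fun j => by
    have := hN j
    omega
  set d := p.natDegree with hd
  let c : ℕ → ℕ → ℤ := fun j i =>
    z (p.coeff i) j * ∏ l ∈ (Finset.range (d + 1)).erase i, w (p.coeff l) j
  refine ⟨∑ i ∈ Finset.range (d + 1), Cz (p.coeff i) + ∑ i ∈ Finset.range (d + 1), Cw (p.coeff i),
    d, ?_⟩
  -- the leading coefficient is eventually nonzero
  have hlead : ∀ᶠ j in (U : Filter ℕ), z (p.coeff d) j ≠ 0 := by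
    by_contra hcon
    have h1 : ∀ᶠ j in (U : Filter ℕ), z (p.coeff d) j = 0 := by
      have h2 := Ultrafilter.eventually_not.mpr hcon
      filter_upwards [h2] with j hj
      exact not_not.mp hj
    have h3 : f (p.coeff d) = 0 := by
      rw [hfx, q_eq_zero_iff]
      filter_upwards [h1] with j hj
      rw [hj]
      simp
    have h4 : p.coeff d = 0 := by
      have hinj := f.injective
      exact hinj (by rw [h3, map_zero])
    exact hp0 (Polynomial.leadingCoeff_eq_zero.mp h4)
  -- the equation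
  have hroot : ∀ᶠ j in (U : Filter ℕ), ∑ i ∈ Finset.range (d + 1),
      algebraMap ℚ (AlgebraicClosure ℚ) ((z (p.coeff i) j : ℚ) / (w (p.coeff i) j : ℚ))
        * h j ^ i = 0 := by
    have h1 : q U (AlgebraicClosure ℚ) (fun j => ∑ i ∈ Finset.range (d + 1),
        algebraMap ℚ (AlgebraicClosure ℚ) ((z (p.coeff i) j : ℚ) / (w (p.coeff i) j : ℚ))
          * h j ^ i) = 0 := by
      rw [← hp, Polynomial.aeval_eq_sum_range]
      have h2 : (fun j => ∑ i ∈ Finset.range (d + 1),
          algebraMap ℚ (AlgebraicClosure ℚ) ((z (p.coeff i) j : ℚ) / (w (p.coeff i) j : ℚ))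
            * h j ^ i) = ∑ i ∈ Finset.range (d + 1), (fun j =>
          algebraMap ℚ (AlgebraicClosure ℚ) ((z (p.coeff i) j : ℚ) / (w (p.coeff i) j : ℚ)))
            * h ^ i := by
        funext j
        simp [Finset.sum_apply]
      rw [h2, map_sum]
      refine Finset.sum_congr rfl fun i _ => ?_
      rw [map_mul, map_pow, Algebra.smul_def, hf, hfx, germMap_q]
    exact (q_eq_zero_iff U _).mp h1
  filter_upwards [hlead, hroot] with j h1 h2
  have hcoef : ∀ i, (∑ l ∈ Finset.range (d + 1),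
      Polynomial.C (c j l) * Polynomial.X ^ l : Polynomial ℤ).coeff i
        = if i ∈ Finset.range (d + 1) then c j i else 0 := coeff_sum_aux d (c j)
  refine ⟨∑ l ∈ Finset.range (d + 1), Polynomial.C (c j l) * Polynomial.X ^ l, ?_, ?_, ?_, ?_⟩
  · intro h0
    have h3 := hcoef d
    rw [h0, if_pos (Finset.self_mem_range_succ d), Polynomial.coeff_zero] at h3
    have h4 : c j d ≠ 0 := by
      refine mul_ne_zero h1 (Finset.prod_ne_zero_iff.mpr fun l _ => hw0 _ _)
    exact h4 h3.symm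
  · refine Polynomial.natDegree_sum_le_of_forall_le _ _ fun i hi => ?_
    refine (Polynomial.natDegree_C_mul_X_pow_le _ _).trans ?_
    have := Finset.mem_range.mp hi
    omega
  · intro i
    rw [hcoef i]
    split_ifs with hi
    · have e1 : |c j i| = |z (p.coeff i) j|
          * ∏ l ∈ (Finset.range (d + 1)).erase i, |w (p.coeff l) j| := by
        change |z (p.coeff i) j * ∏ l ∈ (Finset.range (d + 1)).erase i, w (p.coeff l) j| = _
        rw [abs_mul, Finset.abs_prod]
      rw [e1]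
      have e2 : |z (p.coeff i) j| ≤ (N j : ℤ) ^ (∑ i ∈ Finset.range (d + 1), Cz (p.coeff i)) := by
        refine (hCz _ j).trans (pow_le_pow_right₀ (hN1 j) ?_)
        exact Finset.single_le_sum (f := fun i => Cz (p.coeff i)) (fun _ _ => Nat.zero_le _) hi
      have e3 : ∏ l ∈ (Finset.range (d + 1)).erase i, |w (p.coeff l) j|
          ≤ (N j : ℤ) ^ (∑ i ∈ Finset.range (d + 1), Cw (p.coeff i)) := by
        calc ∏ l ∈ (Finset.range (d + 1)).erase i, |w (p.coeff l) j|
            ≤ ∏ l ∈ (Finset.range (d + 1)).erase i, (N j : ℤ) ^ Cw (p.coeff l) :=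
              Finset.prod_le_prod (fun _ _ => abs_nonneg _) fun l _ => hCw _ j
          _ = (N j : ℤ) ^ (∑ l ∈ (Finset.range (d + 1)).erase i, Cw (p.coeff l)) := by
              rw [Finset.prod_pow_eq_pow_sum]
          _ ≤ _ := pow_le_pow_right₀ (hN1 j)
              (Finset.sum_le_sum_of_subset (Finset.erase_subset _ _))
      calc |z (p.coeff i) j| * ∏ l ∈ (Finset.range (d + 1)).erase i, |w (p.coeff l) j|
          ≤ (N j : ℤ) ^ (∑ i ∈ Finset.range (d + 1), Cz (p.coeff i))
            * (N j : ℤ) ^ (∑ i ∈ Finset.range (d + 1), Cw (p.coeff i)) :=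
            mul_le_mul e2 e3 (Finset.prod_nonneg fun _ _ => abs_nonneg _)
              (pow_nonneg (by have := hN1 j; omega) _)
        _ = _ := by rw [← pow_add]
    · rw [abs_zero]
      exact pow_nonneg (by have := hN1 j; omega) _
  · rw [map_sum]
    have e4 : ∀ i ∈ Finset.range (d + 1),
        Polynomial.aeval (h j) (Polynomial.C (c j i) * Polynomial.X ^ i : Polynomial ℤ)
        = (∏ l ∈ Finset.range (d + 1), (w (p.coeff l) j : AlgebraicClosure ℚ))
          * (algebraMap ℚ (AlgebraicClosure ℚ) ((z (p.coeff i) j : ℚ) / (w (p.coeff i) j : ℚ))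
            * h j ^ i) := by
      intro i hi
      have hwi : (w (p.coeff i) j : AlgebraicClosure ℚ) ≠ 0 := by
        exact_mod_cast hw0 (p.coeff i) j
      rw [map_mul, Polynomial.aeval_C, map_pow, Polynomial.aeval_X,
        ← Finset.mul_prod_erase _ _ hi]
      change ((algebraMap ℤ (AlgebraicClosure ℚ)) (z (p.coeff i) j
        * ∏ l ∈ (Finset.range (d + 1)).erase i, w (p.coeff l) j)) * h j ^ i = _
      rw [map_div₀]
      simp only [map_mul, map_prod, eq_intCast, map_intCast]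
      field_simp
    rw [Finset.sum_congr rfl e4, ← Finset.mul_sum, h2, mul_zero]

end Pool.Agent.Lib.MPb0e841.UN
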