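import Mathlib
import Pool.Agent.Lib.MP_b0e841_co.NF.I

/-! MP_b0e841_co, uniform version, piece P2: ideal divisors, uniform in the field. -/

namespace Pool.Agent.Lib.MPb0e841.UN

open Filter NumberField UniqueFactorizationMonoid

/-- The number of prime ideals of norm at most `m` is bounded in terms of the degree. -/
theorem card_small_primes_le (d m : ℕ) (K : Type) [Field K] [NumberField K]
    (hK : Module.finrank ℚ K ≤ d) (T : Finset (Ideal (𝓞 K)))
    (hT : ∀ P ∈ T, Prime P ∧ Ideal.absNorm P ≤ m) : T.card ≤ m.factorial ^ d := by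
  classical
  have hdvd : ∏ P ∈ T, P ∣ Ideal.span {((m.factorial : ℕ) : 𝓞 K)} := by
    apply Finset.prod_primes_dvd
    · intro P hP
      exact (hT P hP).1
    · intro P hP
      obtain ⟨h1, h2⟩ := hT P hP
      rw [Ideal.dvd_span_singleton]
      have h0 : Ideal.absNorm P ≠ 0 := by
        rw [Ne, Ideal.absNorm_eq_zero_iff]
        simpa using h1.ne_zero
      obtain ⟨c, hc⟩ := Nat.dvd_factorial (Nat.pos_of_ne_zero h0) h2
      rw [hc, Nat.cast_mul]
      exact Ideal.mul_mem_right _ _ (Ideal.absNorm_mem P)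
  have hn := Ideal.absNorm_dvd_absNorm_of_le (Ideal.dvd_iff_le.1 hdvd)
  rw [Ideal.absNorm_span_natCast, RingOfIntegers.rank, map_prod] at hn
  have hfp : 0 < m.factorial := Nat.factorial_pos m
  have h1 : 2 ^ T.card ≤ ∏ P ∈ T, Ideal.absNorm P := by
    rw [← Finset.prod_const]
    apply Finset.prod_le_prod' 
    intro P hP
    have hprime := (hT P hP).1
    have h0 : Ideal.absNorm P ≠ 0 := by
      rw [Ne, Ideal.absNorm_eq_zero_iff]
      simpa using hprime.ne_zero
    have h1 : Ideal.absNorm P ≠ 1 := by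
      rw [Ne, Ideal.absNorm_eq_one_iff]
      intro h
      exact hprime.not_isUnit (Ideal.isUnit_iff.2 h)
    omega
  have h2 : ∏ P ∈ T, Ideal.absNorm P ≤ m.factorial ^ Module.finrank ℚ K :=
    Nat.le_of_dvd (pow_pos hfp _) hn
  have h3 : m.factorial ^ Module.finrank ℚ K ≤ m.factorial ^ d :=
    Nat.pow_le_pow_right hfp hK
  have h4 : T.card < 2 ^ T.card := Nat.lt_two_pow_self
  omega

/-- P2: ideal divisors, uniform in the field. -/
theorem card_ideal_divisors_unif (d n : ℕ) (hn : n ≠ 0) :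
    ∃ C : ℝ, 1 ≤ C ∧ ∀ (K : Type) [Field K] [NumberField K], Module.finrank ℚ K ≤ d →
      ∀ H : ℝ, 1 ≤ H → ∀ I : Ideal (𝓞 K), I ≠ ⊥ →
      ((Ideal.absNorm I : ℕ) : ℝ) ≤ H ^ n → ∀ S : Finset (Ideal (𝓞 K)), (∀ J ∈ S, J ∣ I) →
        (S.card : ℝ) ≤ C * H := by
  classical
  obtain ⟨A, hA1, hA⟩ := NF.exists_pow_le n
  refine ⟨A ^ ((2 ^ n).factorial ^ d), one_le_pow₀ hA1, ?_⟩
  intro K _ _ hK H hH I hI hN S hS
  set m := normalizedFactors I with hm
  have hcard := NF.card_divisors_le_prod K I hI S hS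
  -- the norm as a product
  have hnorm : Ideal.absNorm I = ∏ P ∈ m.toFinset, Ideal.absNorm P ^ m.count P := by
    conv_lhs => rw [← Ideal.prod_normalizedFactors_eq_self hI]
    rw [map_multiset_prod, Finset.prod_multiset_map_count]
  -- the local bound
  have hloc : ∀ P ∈ m.toFinset,
      (((m.count P : ℕ) : ℝ) + 1) ^ n ≤
        (if Ideal.absNorm P ≤ 2 ^ n then A else 1) * ((Ideal.absNorm P : ℕ) : ℝ) ^ m.count P := by
    intro P hP
    have hPm : P ∈ m := by simpa using hP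
    have hprime : Prime P := prime_of_normalized_factor P hPm
    have hP2 : 2 ≤ Ideal.absNorm P := by
      have h0 : Ideal.absNorm P ≠ 0 := by
        rw [Ne, Ideal.absNorm_eq_zero_iff]
        simpa using hprime.ne_zero
      have h1 : Ideal.absNorm P ≠ 1 := by
        rw [Ne, Ideal.absNorm_eq_one_iff]
        intro h
        exact hprime.not_isUnit (Ideal.isUnit_iff.2 h)
      omega
    split_ifs with hPT
    · refine (hA _).trans ?_
      have : (2 : ℝ) ≤ ((Ideal.absNorm P : ℕ) : ℝ) := by exact_mod_cast hP2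
      have hA0 : 0 ≤ A := by linarith
      gcongr
    · have hbig : 2 ^ n ≤ Ideal.absNorm P := (not_le.1 hPT).le
      have h2 : ((m.count P : ℕ) : ℝ) + 1 ≤ 2 ^ m.count P := by
        have : m.count P + 1 ≤ 2 ^ m.count P := Nat.lt_two_pow_self
        exact_mod_cast this
      have h3 : ((2 : ℝ) ^ n) ≤ ((Ideal.absNorm P : ℕ) : ℝ) := by exact_mod_cast hbig
      calc (((m.count P : ℕ) : ℝ) + 1) ^ n ≤ (2 ^ m.count P) ^ n := by gcongr
        _ = ((2 : ℝ) ^ n) ^ m.count P := by rw [← pow_mul, ← pow_mul, mul_comm]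
        _ ≤ ((Ideal.absNorm P : ℕ) : ℝ) ^ m.count P := by gcongr
        _ = 1 * ((Ideal.absNorm P : ℕ) : ℝ) ^ m.count P := (one_mul _).symm
  have hprod : (∏ P ∈ m.toFinset, (((m.count P : ℕ) : ℝ) + 1)) ^ n ≤
      A ^ ((2 ^ n).factorial ^ d) * ((Ideal.absNorm I : ℕ) : ℝ) := by
    rw [← Finset.prod_pow]
    refine (Finset.prod_le_prod (fun _ _ => by positivity) hloc).trans ?_
    rw [Finset.prod_mul_distrib]
    have e1 : ((Ideal.absNorm I : ℕ) : ℝ) =
        ∏ P ∈ m.toFinset, ((Ideal.absNorm P : ℕ) : ℝ) ^ m.count P := by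
      rw [hnorm]; push_cast; rfl
    rw [e1]
    have e2 : (∏ P ∈ m.toFinset, (if Ideal.absNorm P ≤ 2 ^ n then A else (1 : ℝ))) ≤
        A ^ ((2 ^ n).factorial ^ d) := by
      rw [Finset.prod_ite, Finset.prod_const, Finset.prod_const_one, mul_one]
      refine pow_le_pow_right₀ hA1 (card_small_primes_le d (2 ^ n) K hK _ ?_)
      intro P hP
      obtain ⟨hP1, hP2⟩ := Finset.mem_filter.1 hP
      exact ⟨prime_of_normalized_factor P (by simpa using hP1), hP2⟩
    have e3 : 0 ≤ ∏ P ∈ m.toFinset, ((Ideal.absNorm P : ℕ) : ℝ) ^ m.count P :=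
      Finset.prod_nonneg (fun P _ => pow_nonneg (Nat.cast_nonneg _) _)
    exact mul_le_mul_of_nonneg_right e2 e3
  have hS1 : (S.card : ℝ) ≤ ∏ P ∈ m.toFinset, (((m.count P : ℕ) : ℝ) + 1) := by
    exact_mod_cast hcard
  obtain ⟨R, hR⟩ : ∃ R : ℝ, R = A ^ ((2 ^ n).factorial ^ d) := ⟨_, rfl⟩
  rw [← hR] at hprod ⊢
  have hB : (1 : ℝ) ≤ R := by rw [hR]; exact one_le_pow₀ hA1
  have hpow : (S.card : ℝ) ^ n ≤ (R * H) ^ n := by
    calc (S.card : ℝ) ^ n ≤ (∏ P ∈ m.toFinset, (((m.count P : ℕ) : ℝ) + 1)) ^ n := by gcongr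
      _ ≤ R * ((Ideal.absNorm I : ℕ) : ℝ) := hprod
      _ ≤ R * H ^ n := by gcongr
      _ ≤ R ^ n * H ^ n := by
          have : R ≤ R ^ n := le_self_pow₀ hB hn
          have hH0 : (0 : ℝ) ≤ H ^ n := by positivity
          exact mul_le_mul_of_nonneg_right this hH0
      _ = (R * H) ^ n := by rw [mul_pow]
  exact (pow_le_pow_iff_left₀ (by positivity) (by positivity) hn).1 hpow

end Pool.Agent.Lib.MPb0e841.UN
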