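import Mathlib

/-! P1: units of bounded height, uniform in the number field of bounded degree. -/

set_option autoImplicit false

namespace Pool.Agent.Lib.MPb0e841.UN

open NumberField Module

/-- `(2 + a t)^r ≤ C e^t` -/
lemma U1_poly_exp (a : ℝ) (ha : 0 ≤ a) (r : ℕ) :
    ∃ C : ℝ, 1 ≤ C ∧ ∀ H : ℝ, 1 ≤ H → (2 + a * Real.log H) ^ r ≤ C * H := by
  have hr : (1 : ℝ) ≤ r.factorial := by
    exact_mod_cast Nat.one_le_iff_ne_zero.2 (Nat.factorial_ne_zero r)
  refine ⟨(2 + a) ^ r * (r.factorial * Real.exp 1), ?_, ?_⟩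
  · have h1 : (1 : ℝ) ≤ (2 + a) ^ r := one_le_pow₀ (by linarith)
    have h2 : (1 : ℝ) ≤ Real.exp 1 := Real.one_le_exp (by norm_num)
    have h3 : (1 : ℝ) ≤ r.factorial * Real.exp 1 := one_le_mul_of_one_le_of_one_le hr h2
    exact one_le_mul_of_one_le_of_one_le h1 h3
  · intro H hH
    have hl : 0 ≤ Real.log H := Real.log_nonneg hH
    have h1 : (2 + a * Real.log H) ^ r ≤ ((2 + a) * (1 + Real.log H)) ^ r := by
      apply pow_le_pow_left₀ (by positivity)
      nlinarith
    have h2 : (1 + Real.log H) ^ r / r.factorial ≤ Real.exp (1 + Real.log H) :=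
      Real.pow_div_factorial_le_exp _ (by linarith) r
    have h3 : (1 + Real.log H) ^ r ≤ r.factorial * (Real.exp 1 * H) := by
      rw [Real.exp_add, Real.exp_log (by linarith)] at h2
      rw [div_le_iff₀ (by positivity)] at h2
      linarith
    calc (2 + a * Real.log H) ^ r ≤ (2 + a) ^ r * (1 + Real.log H) ^ r := by rwa [← mul_pow]
      _ ≤ (2 + a) ^ r * (r.factorial * (Real.exp 1 * H)) :=
        mul_le_mul_of_nonneg_left h3 (by positivity)
      _ = (2 + a) ^ r * (r.factorial * Real.exp 1) * H := by ring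

open scoped Classical in
/-- the logarithms of the absolute values of a unit of bounded height -/
lemma U1_log_le (K : Type) [Field K] [NumberField K] (n : ℕ) (H : ℝ) (hH : 1 ≤ H) (u : (𝓞 K)ˣ)
    (hu : ∀ φ : K →+* ℂ, ‖φ ((u : 𝓞 K) : K)‖ ≤ H ^ n) (w : InfinitePlace K) :
    |Real.log (w ((u : 𝓞 K) : K))| ≤ Module.finrank ℚ K * (n * Real.log H) := by
  have hl : 0 ≤ Real.log H := Real.log_nonneg hH
  have hN : 0 ≤ n * Real.log H := by positivity
  have hw : ∀ w : InfinitePlace K, Real.log (w (u : K)) ≤ n * Real.log H := by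
    intro w
    have h1 : w ((u : 𝓞 K) : K) ≤ H ^ n := by
      rw [← InfinitePlace.norm_embedding_eq]
      exact hu _
    have h2 : 0 < w ((u : 𝓞 K) : K) := Units.pos_at_place _ _
    calc Real.log (w (u : K)) ≤ Real.log (H ^ n) := Real.log_le_log h2 h1
      _ = n * Real.log H := Real.log_pow _ _
  have hsum := Units.sum_mult_mul_log u
  have hm : (∑ w : InfinitePlace K, (InfinitePlace.mult w : ℝ)) = Module.finrank ℚ K := by
    exact_mod_cast InfinitePlace.sum_mult_eq (K := K)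
  have hf1 : (1 : ℝ) ≤ Module.finrank ℚ K := by exact_mod_cast Module.finrank_pos
  have hm1 : (1 : ℝ) ≤ InfinitePlace.mult w := InfinitePlace.one_le_mult
  rw [abs_le]
  constructor
  · have h2 : ∑ v ∈ Finset.univ.erase w, (InfinitePlace.mult v : ℝ) * Real.log (v (u : K)) ≤
        ∑ v ∈ Finset.univ.erase w, (InfinitePlace.mult v : ℝ) * (n * Real.log H) :=
      Finset.sum_le_sum fun v _ => mul_le_mul_of_nonneg_left (hw v) (by positivity)
    have h3 : ∑ v ∈ Finset.univ.erase w, (InfinitePlace.mult v : ℝ) * (n * Real.log H) ≤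
        Module.finrank ℚ K * (n * Real.log H) := by
      rw [← hm, Finset.sum_mul]
      exact Finset.sum_le_sum_of_subset_of_nonneg (Finset.erase_subset _ _)
        fun v _ _ => by positivity
    have h4 := Finset.add_sum_erase Finset.univ
      (fun v : InfinitePlace K => (InfinitePlace.mult v : ℝ) * Real.log (v (u : K)))
      (Finset.mem_univ w)
    rw [hsum] at h4
    have h5 : -(Module.finrank ℚ K * (n * Real.log H))
        ≤ (InfinitePlace.mult w : ℝ) * Real.log (w (u : K)) := by linarith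
    rcases le_or_gt 0 (Real.log (w (u : K))) with h6 | h6
    · have : 0 ≤ (Module.finrank ℚ K : ℝ) * (n * Real.log H) := by positivity
      linarith
    · nlinarith
  · calc Real.log (w (u : K)) ≤ n * Real.log H := hw w
      _ ≤ Module.finrank ℚ K * (n * Real.log H) := le_mul_of_one_le_left hN hf1

/-- integers with all conjugates at most `2`, uniformly in the field -/
lemma U1_count (d : ℕ) (K : Type) [Field K] [NumberField K] (hd : Module.finrank ℚ K ≤ d)
    (T : Finset K) (hT : ∀ x ∈ T, IsIntegral ℤ x ∧ ∀ φ : K →+* ℂ, ‖φ x‖ ≤ 2) :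
    T.card ≤ d * (2 * 4 ^ d + 1) ^ (d + 1) := by
  classical
  set Bx := Fintype.piFinset (fun _ : Fin (d + 1) => Finset.Icc (-(4 ^ d : ℤ)) (4 ^ d)) with hBx
  have hdeg : ∀ x ∈ T, (minpoly ℤ x).natDegree ≤ d := by
    intro x hx
    have h1 := minpoly.isIntegrallyClosed_eq_field_fractions' ℚ (hT x hx).1
    rw [← (minpoly.monic (hT x hx).1).natDegree_map (algebraMap ℤ ℚ), ← h1]
    exact (minpoly.natDegree_le x).trans hd
  have hcoef : ∀ x ∈ T, ∀ i : ℕ, |(minpoly ℤ x).coeff i| ≤ 4 ^ d := by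
    intro x hx i
    have h1 := minpoly.isIntegrallyClosed_eq_field_fractions' ℚ (hT x hx).1
    have h2 := Embeddings.coeff_bdd_of_norm_le (A := ℂ) (hT x hx).2 i
    rw [h1, Polynomial.coeff_map, eq_intCast, Int.norm_cast_rat, Int.norm_eq_abs] at h2
    have h3 : (max 2 1 : ℝ) ^ (Module.finrank ℚ K)
        * ((Module.finrank ℚ K).choose (Module.finrank ℚ K / 2) : ℝ) ≤ 4 ^ d := by
      have e1 : (max 2 1 : ℝ) = 2 := by norm_num
      rw [e1]
      have e2 : (((Module.finrank ℚ K).choose (Module.finrank ℚ K / 2) : ℕ) : ℝ)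
          ≤ 2 ^ (Module.finrank ℚ K) := by
        exact_mod_cast Nat.choose_le_two_pow _ _
      calc (2 : ℝ) ^ (Module.finrank ℚ K)
            * ((Module.finrank ℚ K).choose (Module.finrank ℚ K / 2) : ℝ)
          ≤ 2 ^ (Module.finrank ℚ K) * 2 ^ (Module.finrank ℚ K) :=
            mul_le_mul_of_nonneg_left e2 (by positivity)
        _ = 4 ^ (Module.finrank ℚ K) := by rw [← mul_pow]; norm_num
        _ ≤ 4 ^ d := pow_le_pow_right₀ (by norm_num) hd
    have h4 := h2.trans h3
    exact_mod_cast h4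
  have hmaps : ∀ x ∈ T, (fun i : Fin (d + 1) => (minpoly ℤ x).coeff i) ∈ Bx := by
    intro x hx
    rw [hBx, Fintype.mem_piFinset]
    intro i
    rw [Finset.mem_Icc]
    exact abs_le.1 (hcoef x hx i)
  have hfib : ∀ c ∈ Bx, (T.filter (fun x => (fun i : Fin (d + 1) => (minpoly ℤ x).coeff i) = c)).card
      ≤ d := by
    intro c _
    rcases (T.filter (fun x =>
      (fun i : Fin (d + 1) => (minpoly ℤ x).coeff i) = c)).eq_empty_or_nonempty with h | ⟨x0, hx0⟩
    · rw [h]; simp
    · rw [Finset.mem_filter] at hx0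
      have hne : (minpoly ℤ x0).map (algebraMap ℤ K) ≠ 0 :=
        ((minpoly.monic (hT x0 hx0.1).1).map (algebraMap ℤ K)).ne_zero
      have hsub : T.filter (fun x => (fun i : Fin (d + 1) => (minpoly ℤ x).coeff i) = c)
          ⊆ ((minpoly ℤ x0).map (algebraMap ℤ K)).roots.toFinset := by
        intro x hx
        rw [Finset.mem_filter] at hx
        have heq : minpoly ℤ x = minpoly ℤ x0 := by
          ext i
          rcases Nat.lt_or_ge i (d + 1) with hi | hi
          · have := congrFun (hx.2.trans hx0.2.symm) ⟨i, hi⟩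
            simpa using this
          · rw [Polynomial.coeff_eq_zero_of_natDegree_lt (by have := hdeg x hx.1; omega),
              Polynomial.coeff_eq_zero_of_natDegree_lt (by have := hdeg x0 hx0.1; omega)]
        rw [Multiset.mem_toFinset, Polynomial.mem_roots hne, Polynomial.IsRoot.def,
          Polynomial.eval_map_algebraMap, ← heq]
        exact minpoly.aeval ℤ x
      calc _ ≤ (((minpoly ℤ x0).map (algebraMap ℤ K)).roots.toFinset).card :=
            Finset.card_le_card hsub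
        _ ≤ Multiset.card ((minpoly ℤ x0).map (algebraMap ℤ K)).roots :=
            Multiset.toFinset_card_le _
        _ ≤ ((minpoly ℤ x0).map (algebraMap ℤ K)).natDegree := Polynomial.card_roots' _
        _ ≤ (minpoly ℤ x0).natDegree := Polynomial.natDegree_map_le
        _ ≤ d := hdeg x0 hx0.1
  have h := Finset.card_le_mul_card_image_of_maps_to hmaps d hfib
  have hcard : Bx.card = (2 * 4 ^ d + 1) ^ (d + 1) := by
    rw [hBx, Fintype.card_piFinset, Finset.prod_const, Finset.card_univ, Fintype.card_fin,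
      Int.card_Icc]
    congr 1
    have : (4 ^ d + 1 - -(4 ^ d) : ℤ) = ((2 * 4 ^ d + 1 : ℕ) : ℤ) := by push_cast; ring
    rw [this, Int.toNat_natCast]
  rwa [hcard] at h

/-- P1: units, uniform in the field. -/
theorem card_units_unif (d n : ℕ) (hn : n ≠ 0) :
    ∃ C : ℝ, 1 ≤ C ∧ ∀ (K : Type) [Field K] [NumberField K], Module.finrank ℚ K ≤ d →
      ∀ H : ℝ, 1 ≤ H → ∀ S : Finset (𝓞 K)ˣ,
      (∀ u ∈ S, ∀ φ : K →+* ℂ, ‖φ ((u : 𝓞 K) : K)‖ ≤ H ^ n) → (S.card : ℝ) ≤ C * H := by
  classical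
  have hlog2 : 0 < Real.log 2 := Real.log_pos (by norm_num)
  set a : ℝ := 2 * (d * n / Real.log 2) with ha
  have ha0 : 0 ≤ a := by positivity
  obtain ⟨C, hC1, hC⟩ := U1_poly_exp a ha0 d
  set Q : ℕ := d * (2 * 4 ^ d + 1) ^ (d + 1) with hQ
  have hQ1 : (1 : ℝ) ≤ (Q : ℝ) + 1 := by
    have : (0 : ℝ) ≤ Q := by positivity
    linarith
  refine ⟨((Q : ℝ) + 1) * C, one_le_mul_of_one_le_of_one_le hQ1 hC1, ?_⟩
  intro K _ _ hd H hH S hS
  have hl : 0 ≤ Real.log H := Real.log_nonneg hH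
  set X : ℝ := d * (n * Real.log H) / Real.log 2 with hX
  have hX0 : 0 ≤ X := by positivity
  set Bx := Fintype.piFinset (fun _ : InfinitePlace K => Finset.Icc (-(⌊X⌋ + 1)) ⌊X⌋) with hBx
  have hlogb : ∀ u ∈ S, ∀ w : InfinitePlace K,
      |Real.log (w ((u : 𝓞 K) : K)) / Real.log 2| ≤ X := by
    intro u hu w
    rw [abs_div, abs_of_pos hlog2, hX]
    apply div_le_div_of_nonneg_right _ hlog2.le
    have h1 := U1_log_le K n H hH u (hS u hu) w
    have h2 : (Module.finrank ℚ K : ℝ) ≤ d := by exact_mod_cast hd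
    exact h1.trans (mul_le_mul_of_nonneg_right h2 (by positivity))
  have hmaps : ∀ u ∈ S, (fun w : InfinitePlace K =>
      ⌊Real.log (w ((u : 𝓞 K) : K)) / Real.log 2⌋) ∈ Bx := by
    intro u hu
    rw [hBx, Fintype.mem_piFinset]
    intro w
    have h1 := abs_le.1 (hlogb u hu w)
    rw [Finset.mem_Icc]
    constructor
    · rw [Int.le_floor]
      push_cast
      have := Int.lt_floor_add_one X
      linarith
    · exact Int.floor_le_floor h1.2
  have hfib : ∀ c ∈ Bx, (S.filter (fun u : (𝓞 K)ˣ => (fun w : InfinitePlace K =>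
      ⌊Real.log (w ((u : 𝓞 K) : K)) / Real.log 2⌋) = c)).card ≤ Q := by
    intro c _
    rcases (S.filter (fun u : (𝓞 K)ˣ => (fun w : InfinitePlace K =>
      ⌊Real.log (w ((u : 𝓞 K) : K)) / Real.log 2⌋) = c)).eq_empty_or_nonempty with h | ⟨u0, hu0⟩
    · rw [h]; simp
    · rw [Finset.mem_filter] at hu0
      have hinj : Set.InjOn (fun u : (𝓞 K)ˣ => (((u / u0 : (𝓞 K)ˣ) : 𝓞 K) : K))
          (S.filter (fun u : (𝓞 K)ˣ => (fun w : InfinitePlace K =>
            ⌊Real.log (w ((u : 𝓞 K) : K)) / Real.log 2⌋) = c)) := by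
        intro u _ v _ huv
        have h1 : ((u / u0 : (𝓞 K)ˣ) : 𝓞 K) = ((v / u0 : (𝓞 K)ˣ) : 𝓞 K) :=
          RingOfIntegers.coe_injective huv
        have h2 : (u / u0 : (𝓞 K)ˣ) = v / u0 := Units.ext h1
        exact div_left_injective h2
      rw [← Finset.card_image_of_injOn hinj]
      apply U1_count d K hd
      intro x hx
      rw [Finset.mem_image] at hx
      obtain ⟨u, hu, rfl⟩ := hx
      rw [Finset.mem_filter] at hu
      refine ⟨RingOfIntegers.isIntegral_coe _, fun φ => ?_⟩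
      have hφ : ‖φ (((u / u0 : (𝓞 K)ˣ) : 𝓞 K) : K)‖
          = InfinitePlace.mk φ (((u / u0 : (𝓞 K)ˣ) : 𝓞 K) : K) := (InfinitePlace.apply φ _).symm
      rw [hφ]
      set w := InfinitePlace.mk φ with hw
      have hfl : ⌊Real.log (w ((u : 𝓞 K) : K)) / Real.log 2⌋
          = ⌊Real.log (w ((u0 : 𝓞 K) : K)) / Real.log 2⌋ := by
        have := congrFun (hu.2.trans hu0.2.symm) w
        simpa using this
      have hmul : (((u / u0 : (𝓞 K)ˣ) : 𝓞 K) : K) * ((u0 : 𝓞 K) : K) = ((u : 𝓞 K) : K) := by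
        rw [← map_mul, ← Units.val_mul, div_mul_cancel]
      have hpos0 : 0 < w ((u0 : 𝓞 K) : K) := NumberField.Units.pos_at_place _ _
      have hposu : 0 < w ((u : 𝓞 K) : K) := NumberField.Units.pos_at_place _ _
      have hposv : 0 < w (((u / u0 : (𝓞 K)ˣ) : 𝓞 K) : K) := NumberField.Units.pos_at_place _ _
      have hlm : Real.log (w (((u / u0 : (𝓞 K)ˣ) : 𝓞 K) : K))
          + Real.log (w ((u0 : 𝓞 K) : K)) = Real.log (w ((u : 𝓞 K) : K)) := by
        rw [← Real.log_mul hposv.ne' hpos0.ne', ← map_mul, hmul]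
      have h1 := Int.floor_le (Real.log (w ((u0 : 𝓞 K) : K)) / Real.log 2)
      have h2 := Int.lt_floor_add_one (Real.log (w ((u : 𝓞 K) : K)) / Real.log 2)
      rw [hfl] at h2
      have h3 : Real.log (w ((u : 𝓞 K) : K)) / Real.log 2
          < Real.log (w ((u0 : 𝓞 K) : K)) / Real.log 2 + 1 := by linarith
      have h4 : Real.log (w ((u : 𝓞 K) : K)) < Real.log (w ((u0 : 𝓞 K) : K)) + Real.log 2 := by
        have h5 := mul_lt_mul_of_pos_right h3 hlog2
        rwa [div_mul_cancel₀ _ hlog2.ne', add_mul, div_mul_cancel₀ _ hlog2.ne', one_mul] at h5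
      have h6 : Real.log (w (((u / u0 : (𝓞 K)ˣ) : 𝓞 K) : K)) ≤ Real.log 2 := by linarith
      exact (Real.log_le_log_iff hposv (by norm_num)).1 h6
  have hmain := Finset.card_le_mul_card_image_of_maps_to hmaps Q hfib
  have hfl0 : 0 ≤ ⌊X⌋ := Int.floor_nonneg.2 hX0
  have hBcard : (Bx.card : ℝ) ≤ (2 + a * Real.log H) ^ d := by
    rw [hBx, Fintype.card_piFinset, Finset.prod_const, Finset.card_univ, Int.card_Icc]
    have e1 : (⌊X⌋ + 1 - -(⌊X⌋ + 1)).toNat = (2 * ⌊X⌋ + 2).toNat := by congr 1; ring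
    rw [e1]
    have e2 : (((2 * ⌊X⌋ + 2).toNat : ℕ) : ℝ) = 2 * (⌊X⌋ : ℝ) + 2 := by
      have : (((2 * ⌊X⌋ + 2).toNat : ℕ) : ℤ) = 2 * ⌊X⌋ + 2 := Int.toNat_of_nonneg (by linarith)
      exact_mod_cast this
    have e3 : (((2 * ⌊X⌋ + 2).toNat : ℕ) : ℝ) ≤ 2 + a * Real.log H := by
      rw [e2]
      have h7 := Int.floor_le X
      have h8 : a * Real.log H = 2 * X := by rw [ha, hX]; ring
      linarith
    have e4 : Fintype.card (InfinitePlace K) ≤ d := by
      refine le_trans ?_ hd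
      rw [← InfinitePlace.sum_mult_eq (K := K), ← Finset.card_univ, Finset.card_eq_sum_ones]
      exact Finset.sum_le_sum fun w _ => by
        exact_mod_cast (InfinitePlace.one_le_mult (w := w))
    have e5 : (1 : ℝ) ≤ 2 + a * Real.log H := by
      have : 0 ≤ a * Real.log H := by positivity
      linarith
    push_cast
    calc ((((2 * ⌊X⌋ + 2).toNat : ℕ) : ℝ)) ^ (Fintype.card (InfinitePlace K))
        ≤ (2 + a * Real.log H) ^ (Fintype.card (InfinitePlace K)) :=
          pow_le_pow_left₀ (by positivity) e3 _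
      _ ≤ (2 + a * Real.log H) ^ d := pow_le_pow_right₀ e5 e4
  calc (S.card : ℝ) ≤ (Q : ℝ) * (Bx.card : ℝ) := by exact_mod_cast hmain
    _ ≤ ((Q : ℝ) + 1) * (2 + a * Real.log H) ^ d := by
        apply mul_le_mul (by linarith) hBcard (by positivity) (by positivity)
    _ ≤ ((Q : ℝ) + 1) * (C * H) := mul_le_mul_of_nonneg_left (hC H hH) (by positivity)
    _ = ((Q : ℝ) + 1) * C * H := by ring

end Pool.Agent.Lib.MPb0e841.UN
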