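import Mathlib
import Pool.Agent.Lib.MP_b0e841_co.UN.U1
import Pool.Agent.Lib.MP_b0e841_co.UN.I1

/-! MP_b0e841_co: factorisations of bounded height, uniform in the field (P3). -/

set_option autoImplicit false

namespace Pool.Agent.Lib.MPb0e841.UN

open NumberField Module

/-- the product of the absolute values of the conjugates is the absolute norm -/
lemma F1_prod_norm (K : Type) [Field K] [NumberField K] (x : 𝓞 K) :
    ∏ φ : K →+* ℂ, ‖φ (x : K)‖ = ((Algebra.norm ℤ x).natAbs : ℝ) := by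
  have h := congrArg (fun z : ℂ => ‖z‖) (Algebra.norm_eq_prod_embeddings ℚ ℂ (x : K))
  simp only [norm_prod] at h
  rw [← Fintype.prod_equiv (RingHom.equivRatAlgHom K ℂ) (fun f => ‖f (x : K)‖)
    (fun φ => ‖φ (x : K)‖) fun _ => by simp [RingHom.equivRatAlgHom_apply]] at h
  rw [← h, ← Algebra.coe_norm_int, eq_ratCast, Rat.cast_intCast, Nat.cast_natAbs,
    Complex.norm_intCast, Int.cast_abs]

lemma F1_coe_mul (K : Type) [Field K] [NumberField K] (x y : 𝓞 K) :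
    ((x * y : 𝓞 K) : K) = (x : K) * (y : K) := rfl

/-- upper bound for the norm -/
lemma F1_norm_le (K : Type) [Field K] [NumberField K] (x : 𝓞 K) (B : ℝ)
    (hB : ∀ φ : K →+* ℂ, ‖φ (x : K)‖ ≤ B) :
    ((Algebra.norm ℤ x).natAbs : ℝ) ≤ B ^ (finrank ℚ K) := by
  rw [← F1_prod_norm, ← NumberField.Embeddings.card K ℂ, ← Finset.card_univ]
  calc ∏ φ : K →+* ℂ, ‖φ (x : K)‖ ≤ ∏ _φ : K →+* ℂ, B :=
        Finset.prod_le_prod (fun φ _ => norm_nonneg _) (fun φ _ => hB φ)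
    _ = _ := by rw [Finset.prod_const]

/-- lower bound for one conjugate -/
lemma F1_lower (K : Type) [Field K] [NumberField K] (x : 𝓞 K) (hx : x ≠ 0) (B : ℝ) (hB1 : 1 ≤ B)
    (hB : ∀ φ : K →+* ℂ, ‖φ (x : K)‖ ≤ B) (φ : K →+* ℂ) :
    1 ≤ ‖φ (x : K)‖ * B ^ (finrank ℚ K) := by
  classical
  have h1 : (1 : ℝ) ≤ ((Algebra.norm ℤ x).natAbs : ℝ) := by
    have h2 : Algebra.norm ℤ x ≠ 0 := Algebra.norm_ne_zero_iff.mpr hx
    have h3 : 1 ≤ (Algebra.norm ℤ x).natAbs := Int.natAbs_pos.mpr h2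
    exact_mod_cast h3
  have h4 : ((Algebra.norm ℤ x).natAbs : ℝ) ≤ ‖φ (x : K)‖ * B ^ (finrank ℚ K) := by
    rw [← F1_prod_norm, ← Finset.mul_prod_erase Finset.univ _ (Finset.mem_univ φ)]
    refine mul_le_mul_of_nonneg_left ?_ (norm_nonneg _)
    calc ∏ ψ ∈ Finset.univ.erase φ, ‖ψ (x : K)‖ ≤ ∏ _ψ ∈ Finset.univ.erase φ, B :=
          Finset.prod_le_prod (fun ψ _ => norm_nonneg _) (fun ψ _ => hB ψ)
      _ = B ^ (Finset.univ.erase φ).card := by rw [Finset.prod_const]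
      _ ≤ B ^ (finrank ℚ K) := by
          refine pow_le_pow_right₀ hB1 ?_
          rw [← NumberField.Embeddings.card K ℂ, ← Finset.card_univ]
          exact Finset.card_le_card (Finset.erase_subset _ _)
  exact h1.trans h4

/-- factorisations of bounded height, uniform in the field -/
theorem card_factors_unif (d n : ℕ) (hn : n ≠ 0) :
    ∃ C : ℝ, 1 ≤ C ∧ ∀ (K : Type) [Field K] [NumberField K], Module.finrank ℚ K ≤ d →
      ∀ H : ℝ, 1 ≤ H → ∀ M : 𝓞 K, M ≠ 0 → ∀ S : Finset (𝓞 K),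
      (∀ y ∈ S, (∀ φ : K →+* ℂ, ‖φ (y : K)‖ ≤ H ^ n) ∧
        ∃ z : 𝓞 K, y * z = M ∧ ∀ φ : K →+* ℂ, ‖φ (z : K)‖ ≤ H ^ n) →
      (S.card : ℝ) ≤ C * H := by
  classical
  -- exponent
  have hm : 2 * (2 * n * (d + 1)) ≠ 0 := by positivity
  obtain ⟨C1, hC1, hI⟩ := card_ideal_divisors_unif d (2 * (2 * n * (d + 1))) hm
  obtain ⟨C2, hC2, hU⟩ := card_units_unif d (2 * (2 * n * (d + 1))) hm
  refine ⟨C2 * C1, one_le_mul_of_one_le_of_one_le hC2 hC1, ?_⟩
  intro K _ _ hK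
  intro H hH M hM S hS
  set R := Real.sqrt H with hR
  have hR1 : 1 ≤ R := by rw [hR]; exact Real.one_le_sqrt.mpr hH
  have hRR : R * R = H := Real.mul_self_sqrt (by linarith)
  have hpow : ∀ k : ℕ, R ^ (2 * k) = H ^ k := by
    intro k
    rw [pow_mul, pow_two, hRR]
  rcases S.eq_empty_or_nonempty with h0 | ⟨w, hw⟩
  · rw [h0, Finset.card_empty, Nat.cast_zero]
    positivity
  -- the conjugates of `M`
  have hMB : ∀ φ : K →+* ℂ, ‖φ (M : K)‖ ≤ H ^ (2 * n) := by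
    intro φ
    obtain ⟨h1, z, h2, h3⟩ := hS w hw
    rw [← h2, F1_coe_mul, map_mul, norm_mul]
    calc ‖φ (w : K)‖ * ‖φ (z : K)‖ ≤ H ^ n * H ^ n :=
          mul_le_mul (h1 φ) (h3 φ) (norm_nonneg _) (by positivity)
      _ = H ^ (2 * n) := by rw [two_mul, pow_add]
  have hB1 : (1 : ℝ) ≤ H ^ (2 * n) := one_le_pow₀ hH
  have hMl := F1_lower K M hM (H ^ (2 * n)) hB1 hMB
  -- the ideals
  set T : Finset (Ideal (𝓞 K)) := S.image (fun y => Ideal.span {y}) with hT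
  have hTc : (T.card : ℝ) ≤ C1 * R := by
    refine hI K hK R hR1 (Ideal.span {M}) ?_ ?_ T ?_
    · rw [Ne, Ideal.span_singleton_eq_bot]
      exact hM
    · rw [Ideal.absNorm_span_singleton, hpow]
      refine (F1_norm_le K M _ hMB).trans ?_
      rw [← pow_mul]
      refine pow_le_pow_right₀ hH ?_
      exact Nat.mul_le_mul_left _ (hK.trans (Nat.le_succ _))
    · intro J hJ
      obtain ⟨y, hy, rfl⟩ := Finset.mem_image.mp hJ
      obtain ⟨h1, z, h2, h3⟩ := hS y hy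
      rw [Ideal.dvd_iff_le, Ideal.span_singleton_le_span_singleton]
      exact ⟨z, h2.symm⟩
  -- the fibres
  have hfib : ∀ J ∈ T, ((S.filter (fun y => Ideal.span {y} = J)).card : ℝ) ≤ C2 * R := by
    intro J hJ
    obtain ⟨y0, hy0, hJ0⟩ := Finset.mem_image.mp hJ
    obtain ⟨a1, z0, a2, a3⟩ := hS y0 hy0
    have hy00 : y0 ≠ 0 := by
      intro h
      apply hM
      rw [← a2, h, zero_mul]
    have hass : ∀ y ∈ S.filter (fun y => Ideal.span {y} = J), ∃ u : (𝓞 K)ˣ, y0 * (u : 𝓞 K) = y := by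
      intro y hy
      have h1 : Ideal.span {y0} = Ideal.span {y} := by
        rw [(Finset.mem_filter.mp hy).2]
        exact hJ0
      exact Ideal.span_singleton_eq_span_singleton.mp h1
    let g : 𝓞 K → (𝓞 K)ˣ := fun y => if h : ∃ u : (𝓞 K)ˣ, y0 * (u : 𝓞 K) = y then h.choose else 1
    have hg : ∀ y ∈ S.filter (fun y => Ideal.span {y} = J), y0 * (g y : 𝓞 K) = y := by
      intro y hy
      have h := hass y hy
      have e : g y = h.choose := dif_pos h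
      rw [e]
      exact h.choose_spec
    have hinj : Set.InjOn g (S.filter (fun y => Ideal.span {y} = J) : Set (𝓞 K)) := by
      intro y hy y' hy' he
      rw [← hg y (by exact_mod_cast hy), ← hg y' (by exact_mod_cast hy'), he]
    rw [← Finset.card_image_of_injOn hinj]
    refine hU K hK R hR1 _ ?_
    intro u hu φ
    obtain ⟨y, hy, rfl⟩ := Finset.mem_image.mp hu
    have hyS := (Finset.mem_filter.mp hy).1
    obtain ⟨b1, z, b2, b3⟩ := hS y hyS
    have e1 : ‖φ (y0 : K)‖ * ‖φ ((g y : 𝓞 K) : K)‖ = ‖φ (y : K)‖ := by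
      conv_rhs => rw [← hg y hy]
      rw [F1_coe_mul, map_mul, norm_mul]
    have e2 : ‖φ (y0 : K)‖ * ‖φ (z0 : K)‖ = ‖φ (M : K)‖ := by
      rw [← a2, F1_coe_mul, map_mul, norm_mul]
    have e3 : 1 ≤ ‖φ (M : K)‖ * (H ^ (2 * n)) ^ d :=
      (hMl φ).trans (mul_le_mul_of_nonneg_left (pow_le_pow_right₀ hB1 hK) (norm_nonneg _))
    have p0 : 0 ≤ ‖φ ((g y : 𝓞 K) : K)‖ := norm_nonneg _
    have e4 : ‖φ (M : K)‖ * ‖φ ((g y : 𝓞 K) : K)‖ ≤ H ^ (2 * n) := by
      calc ‖φ (M : K)‖ * ‖φ ((g y : 𝓞 K) : K)‖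
          = ‖φ (y : K)‖ * ‖φ (z0 : K)‖ := by rw [← e2, ← e1]; ring
        _ ≤ H ^ n * H ^ n := mul_le_mul (b1 φ) (a3 φ) (norm_nonneg _) (by positivity)
        _ = H ^ (2 * n) := by rw [two_mul, pow_add]
    have hB0 : (0 : ℝ) ≤ (H ^ (2 * n)) ^ d := by positivity
    calc ‖φ ((g y : 𝓞 K) : K)‖ ≤ (‖φ (M : K)‖ * (H ^ (2 * n)) ^ d) * ‖φ ((g y : 𝓞 K) : K)‖ :=
          le_mul_of_one_le_left p0 e3
      _ = (‖φ (M : K)‖ * ‖φ ((g y : 𝓞 K) : K)‖) * (H ^ (2 * n)) ^ d := by ring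
      _ ≤ H ^ (2 * n) * (H ^ (2 * n)) ^ d := mul_le_mul_of_nonneg_right e4 hB0
      _ = R ^ (2 * (2 * n * (d + 1))) := by
          rw [hpow, ← pow_succ', ← pow_mul]
  -- conclusion
  have hcard : (S.card : ℝ) = ∑ J ∈ T, ((S.filter (fun y => Ideal.span {y} = J)).card : ℝ) := by
    have := Finset.card_eq_sum_card_image (fun y : 𝓞 K => Ideal.span {y}) S
    exact_mod_cast this
  rw [hcard]
  calc ∑ J ∈ T, ((S.filter (fun y => Ideal.span {y} = J)).card : ℝ) ≤ ∑ _J ∈ T, C2 * R :=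
        Finset.sum_le_sum hfib
    _ = (T.card : ℝ) * (C2 * R) := by rw [Finset.sum_const, nsmul_eq_mul]
    _ ≤ (C1 * R) * (C2 * R) := mul_le_mul_of_nonneg_right hTc (by positivity)
    _ = C2 * C1 * H := by rw [← hRR]; ring

end Pool.Agent.Lib.MPb0e841.UN
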