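import Mathlib
import Pool.Agent.Lib.MP_b0e841_co.UN.Defs
import Pool.Agent.Lib.MP_b0e841_co.NF.S1

/-! MP_b0e841_co, uniform version, P6: points of large degree over a subfield of the ultrapower
of the rationals. -/

set_option autoImplicit false

namespace Pool.Agent.Lib.MPb0e841.UN

open Filter MvPolynomial

/-- Nonvanishing of an explicit rational sum from `NF.exists_eval`, in the algebraic closure. -/
lemma H1_alpha (s D : ℕ) : ∃ α : Fin s → AlgebraicClosure ℚ,
    ∀ p : MvPolynomial (Fin s) ℚ, p ≠ 0 → p.totalDegree ≤ D → aeval α p ≠ 0 := by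
  obtain ⟨L, i1, i2, ev, hev⟩ := NF.exists_eval s D
  let φ : L →ₐ[ℚ] AlgebraicClosure ℚ := IsAlgClosed.lift
  refine ⟨fun i => φ (ev (X i)), fun p hp hd h0 => ?_⟩
  refine hev p hp hd ?_
  have h1 : (φ : L →+* AlgebraicClosure ℚ).comp ev
      = ((aeval (fun i => φ (ev (X i))) : MvPolynomial (Fin s) ℚ →ₐ[ℚ] AlgebraicClosure ℚ) :
        MvPolynomial (Fin s) ℚ →+* AlgebraicClosure ℚ) := by
    apply ringHom_ext
    · intro r
      exact congrFun (congrArg DFunLike.coe (Subsingleton.elim
        (((φ : L →+* AlgebraicClosure ℚ).comp ev).comp C)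
        (((aeval (fun i => φ (ev (X i))) : MvPolynomial (Fin s) ℚ →ₐ[ℚ] AlgebraicClosure ℚ) :
        MvPolynomial (Fin s) ℚ →+* AlgebraicClosure ℚ).comp C))) r
    · intro i
      simp
  have h2 : φ (ev p) = aeval (fun i => φ (ev (X i))) p := by
    have := congrFun (congrArg DFunLike.coe h1) p
    exact this
  rw [h0] at h2
  exact (map_eq_zero φ).1 h2

theorem exists_ev (U : Ultrafilter ℕ) (k : Type) [Field k]
    [Algebra k (Germ (U : Filter ℕ) (AlgebraicClosure ℚ))]
    (f : k →+* Germ (U : Filter ℕ) ℚ)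
    (hf : ∀ x, algebraMap k (Germ (U : Filter ℕ) (AlgebraicClosure ℚ)) x
      = germMap U (algebraMap ℚ (AlgebraicClosure ℚ)) (f x)) (s D : ℕ) :
    ∃ ev : MvPolynomial (Fin s) k →ₐ[k] Germ (U : Filter ℕ) (AlgebraicClosure ℚ),
      (∀ i, IsAlgebraic k (ev (MvPolynomial.X i))) ∧
      ∀ p : MvPolynomial (Fin s) k, p ≠ 0 → p.totalDegree ≤ D → ev p ≠ 0 := by
  classical
  obtain ⟨α, hα⟩ := H1_alpha s D
  refine ⟨aeval (fun i => q U (AlgebraicClosure ℚ) (fun _ => α i)), fun i => ?_, ?_⟩
  · rw [aeval_X]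
    have ha : IsAlgebraic ℤ (α i) := by
      have h0 := AlgebraicClosure.isAlgebraic ℚ
      have h1 : IsAlgebraic ℚ (α i) := h0.isAlgebraic (α i)
      exact (IsFractionRing.isAlgebraic_iff ℤ ℚ (AlgebraicClosure ℚ)).2 h1
    obtain ⟨P, hP0, hP⟩ := ha
    have hinj : Function.Injective (Int.castRingHom k) := by
      intro x y hxy
      have h2 : ((x : ℤ) : Germ (U : Filter ℕ) ℚ) = ((y : ℤ) : Germ (U : Filter ℕ) ℚ) := by
        have := congrArg f hxy
        simpa using this
      have h3 : q U ℚ (fun _ => (x : ℚ)) = q U ℚ (fun _ => (y : ℚ)) := by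
        have e1 : q U ℚ (fun _ => (x : ℚ)) = ((x : ℤ) : Germ (U : Filter ℕ) ℚ) := by
          have : (fun _ => (x : ℚ) : ℕ → ℚ) = ((x : ℤ) : ℕ → ℚ) := by
            funext j
            simp
          rw [this, map_intCast]
        have e2 : q U ℚ (fun _ => (y : ℚ)) = ((y : ℤ) : Germ (U : Filter ℕ) ℚ) := by
          have : (fun _ => (y : ℚ) : ℕ → ℚ) = ((y : ℤ) : ℕ → ℚ) := by
            funext j
            simp
          rw [this, map_intCast]
        rw [e1, e2, h2]
      rw [q_eq_iff] at h3
      obtain ⟨j, hj⟩ := h3.exists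
      exact_mod_cast hj
    refine ⟨P.map (Int.castRingHom k), ?_, ?_⟩
    · exact (Polynomial.map_ne_zero_iff hinj).2 hP0
    · rw [Polynomial.aeval_def, Polynomial.eval₂_map]
      have h4 : (algebraMap k (Germ (U : Filter ℕ) (AlgebraicClosure ℚ))).comp
          (Int.castRingHom k)
          = (q U (AlgebraicClosure ℚ)).comp ((Pi.constRingHom ℕ (AlgebraicClosure ℚ)).comp
            (algebraMap ℤ (AlgebraicClosure ℚ))) := by
        exact Subsingleton.elim _ _
      have h5 : q U (AlgebraicClosure ℚ) (fun _ => α i)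
          = ((q U (AlgebraicClosure ℚ)).comp (Pi.constRingHom ℕ (AlgebraicClosure ℚ))) (α i) := rfl
      rw [h4, h5, ← RingHom.comp_assoc, ← Polynomial.hom_eval₂, ← Polynomial.aeval_def, hP,
        map_zero]
  · intro p hp hd h0
    have hc : ∀ a : Fin s →₀ ℕ, ∃ c : ℕ → ℚ, q U ℚ c = f (coeff a p) := fun a => q_surj U _
    choose c hc using hc
    let P : ℕ → MvPolynomial (Fin s) ℚ := fun j => ∑ a ∈ p.support, monomial a (c a j)
    have hP : aeval (fun i => q U (AlgebraicClosure ℚ) (fun _ => α i)) p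
        = q U (AlgebraicClosure ℚ) (fun j => aeval α (P j)) := by
      rw [aeval_def, eval₂_eq']
      have hF : (fun j => aeval α (P j) : ℕ → AlgebraicClosure ℚ)
          = ∑ a ∈ p.support, (fun j => algebraMap ℚ (AlgebraicClosure ℚ) (c a j)) *
            ∏ i : Fin s, (fun _ => α i : ℕ → AlgebraicClosure ℚ) ^ (a i) := by
        funext j
        rw [Finset.sum_apply]
        simp only [P, map_sum]
        refine Finset.sum_congr rfl fun a _ => ?_
        rw [Pi.mul_apply, Finset.prod_apply]
        rw [aeval_monomial, Finsupp.prod_fintype]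
        · rfl
        · exact fun i => pow_zero _
      rw [hF, map_sum]
      refine Finset.sum_congr rfl fun a _ => ?_
      rw [map_mul, map_prod, hf, ← hc a, germMap_q]
      simp only [map_pow]
    rw [hP, q_eq_zero_iff] at h0
    obtain ⟨a, ha⟩ := (support_nonempty (p := p)).2 hp
    have ha0 : q U ℚ (c a) ≠ 0 := by
      rw [hc a]
      intro h
      exact (mem_support_iff.1 ha) ((map_eq_zero f).1 h)
    rw [Ne, q_eq_zero_iff] at ha0
    have ha1 : ∀ᶠ j in (U : Filter ℕ), ¬ c a j = 0 := Ultrafilter.eventually_not.2 ha0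
    obtain ⟨j, hj0, hj1⟩ := (h0.and ha1).exists
    refine hα (P j) ?_ ?_ hj0
    · intro hz
      apply hj1
      have h1 : coeff a (P j) = c a j := by
        simp only [P]
        rw [coeff_sum, Finset.sum_eq_single a]
        · rw [coeff_monomial, if_pos rfl]
        · intro b _ hba
          rw [coeff_monomial, if_neg hba]
        · intro hcon
          exact absurd ha hcon
      rw [← h1, hz, coeff_zero]
    · refine (totalDegree_finset_sum _ _).trans ?_
      refine Finset.sup_le fun b hb => ?_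
      refine (totalDegree_monomial_le _ _).trans ?_
      exact (le_totalDegree hb).trans hd

end Pool.Agent.Lib.MPb0e841.UN
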