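import Mathlib
import Pool.Agent.Lib.MP_b0e841_co.UN.Defs

set_option autoImplicit false

/-! The subfield of the ultrapower of `ℚ` formed by the quotients of polynomially bounded integer
sequences. -/

namespace Pool.Agent.Lib.MPb0e841.UN

open Filter

private lemma bdd_one (N : ℕ → ℕ) : Bdd N (fun _ => 1) := ⟨0, fun j => by simp⟩

private lemma bdd_zero (N : ℕ → ℕ) : Bdd N (fun _ => 0) := ⟨0, fun j => by simp⟩

private lemma bdd_neg {N : ℕ → ℕ} {z : ℕ → ℤ} (h : Bdd N z) : Bdd N (fun j => -z j) := by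
  obtain ⟨C, hC⟩ := h
  exact ⟨C, fun j => by rw [abs_neg]; exact hC j⟩

private lemma bdd_mul {N : ℕ → ℕ} {z w : ℕ → ℤ} (hz : Bdd N z) (hw : Bdd N w) :
    Bdd N (fun j => z j * w j) := by
  obtain ⟨C, hC⟩ := hz
  obtain ⟨D, hD⟩ := hw
  refine ⟨C + D, fun j => ?_⟩
  rw [abs_mul, pow_add]
  exact mul_le_mul (hC j) (hD j) (abs_nonneg _) (by positivity)

private lemma bdd_add {N : ℕ → ℕ} (hN : ∀ j, 2 ≤ N j) {z w : ℕ → ℤ} (hz : Bdd N z)
    (hw : Bdd N w) : Bdd N (fun j => z j + w j) := by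
  obtain ⟨C, hC⟩ := hz
  obtain ⟨D, hD⟩ := hw
  refine ⟨max C D + 1, fun j => ?_⟩
  have h2 : (2 : ℤ) ≤ (N j : ℤ) := by exact_mod_cast hN j
  have h1 : (1 : ℤ) ≤ (N j : ℤ) := by linarith
  have e1 : (N j : ℤ) ^ C ≤ (N j : ℤ) ^ (max C D) := pow_le_pow_right₀ h1 (le_max_left _ _)
  have e2 : (N j : ℤ) ^ D ≤ (N j : ℤ) ^ (max C D) := pow_le_pow_right₀ h1 (le_max_right _ _)
  have e3 : 0 ≤ (N j : ℤ) ^ (max C D) := by positivity
  calc |z j + w j| ≤ |z j| + |w j| := abs_add_le _ _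
    _ ≤ (N j : ℤ) ^ (max C D) + (N j : ℤ) ^ (max C D) :=
        add_le_add ((hC j).trans e1) ((hD j).trans e2)
    _ ≤ (N j : ℤ) ^ (max C D + 1) := by rw [pow_succ]; nlinarith

private lemma bdd_ite {N : ℕ → ℕ} {z w : ℕ → ℤ} (P : ℕ → Prop) [DecidablePred P]
    (hz : Bdd N z) (hw : Bdd N w) (hN : ∀ j, 2 ≤ N j) :
    Bdd N (fun j => if P j then z j else w j) := by
  obtain ⟨C, hC⟩ := hz
  obtain ⟨D, hD⟩ := hw
  refine ⟨max C D, fun j => ?_⟩
  have h2 : (2 : ℤ) ≤ (N j : ℤ) := by exact_mod_cast hN j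
  have h1 : (1 : ℤ) ≤ (N j : ℤ) := by linarith
  dsimp only
  split_ifs
  · exact (hC j).trans (pow_le_pow_right₀ h1 (le_max_left _ _))
  · exact (hD j).trans (pow_le_pow_right₀ h1 (le_max_right _ _))

/-- The subfield of quotients of polynomially bounded integer sequences. -/
private noncomputable def KK (U : Ultrafilter ℕ) (N : ℕ → ℕ) (hN : ∀ j, 2 ≤ N j) :
    Subfield (Germ (U : Filter ℕ) ℚ) where
  carrier := {x | ∃ z w : ℕ → ℤ, Bdd N z ∧ Bdd N w ∧ (∀ j, w j ≠ 0) ∧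
    x = q U ℚ (fun j => (z j : ℚ) / (w j : ℚ))}
  mul_mem' := by
    rintro _ _ ⟨z, w, hz, hw, h0, rfl⟩ ⟨z', w', hz', hw', h0', rfl⟩
    refine ⟨fun j => z j * z' j, fun j => w j * w' j, bdd_mul hz hz', bdd_mul hw hw',
      fun j => mul_ne_zero (h0 j) (h0' j), ?_⟩
    rw [← map_mul]
    congr 1
    funext j
    simp only [Pi.mul_apply]
    push_cast
    rw [div_mul_div_comm]
  one_mem' := by
    refine ⟨fun _ => 1, fun _ => 1, bdd_one N, bdd_one N, fun _ => one_ne_zero, ?_⟩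
    rw [← map_one (q U ℚ)]
    congr 1
    funext j
    simp
  add_mem' := by
    rintro _ _ ⟨z, w, hz, hw, h0, rfl⟩ ⟨z', w', hz', hw', h0', rfl⟩
    refine ⟨fun j => z j * w' j + w j * z' j, fun j => w j * w' j,
      bdd_add hN (bdd_mul hz hw') (bdd_mul hw hz'), bdd_mul hw hw',
      fun j => mul_ne_zero (h0 j) (h0' j), ?_⟩
    rw [← map_add]
    congr 1
    funext j
    have a1 : (w j : ℚ) ≠ 0 := by exact_mod_cast h0 j
    have a2 : (w' j : ℚ) ≠ 0 := by exact_mod_cast h0' j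
    simp only [Pi.add_apply]
    push_cast
    rw [div_add_div _ _ a1 a2]
  zero_mem' := by
    refine ⟨fun _ => 0, fun _ => 1, bdd_zero N, bdd_one N, fun _ => one_ne_zero, ?_⟩
    rw [← map_zero (q U ℚ)]
    congr 1
    funext j
    simp
  neg_mem' := by
    rintro _ ⟨z, w, hz, hw, h0, rfl⟩
    refine ⟨fun j => -z j, w, bdd_neg hz, hw, h0, ?_⟩
    rw [← map_neg]
    congr 1
    funext j
    simp only [Pi.neg_apply]
    push_cast
    rw [neg_div]
  inv_mem' := by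
    rintro _ ⟨z, w, hz, hw, h0, rfl⟩
    refine ⟨fun j => if z j = 0 then 0 else w j, fun j => if z j = 0 then 1 else z j,
      bdd_ite (fun j => z j = 0) (bdd_zero N) hw hN, bdd_ite (fun j => z j = 0) (bdd_one N) hz hN,
      fun j => ?_, ?_⟩
    · dsimp only
      split_ifs with h
      · exact one_ne_zero
      · exact h
    · change ((fun j => ((z j : ℚ) / (w j : ℚ))⁻¹ : ℕ → ℚ) : Germ (U : Filter ℕ) ℚ) = _
      change _ = ((fun j => (((if z j = 0 then 0 else w j : ℤ) : ℚ))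
        / (((if z j = 0 then 1 else z j : ℤ) : ℚ)) : ℕ → ℚ) : Germ (U : Filter ℕ) ℚ)
      congr 1
      funext j
      by_cases h : z j = 0
      · simp [h]
      · simp only [h, if_false]
        rw [inv_div]

/-- The field of quotients of polynomially bounded integer sequences. -/
theorem exists_KK (U : Ultrafilter ℕ) (N : ℕ → ℕ) (hN : ∀ j, 2 ≤ N j) :
    ∃ (k : Type) (_ : Field k) (f : k →+* Germ (U : Filter ℕ) ℚ),
      (∀ z : ℕ → ℤ, Bdd N z → ∃ x : k, f x = q U ℚ (fun j => (z j : ℚ))) ∧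
      (∀ x : k, ∃ z w : ℕ → ℤ, Bdd N z ∧ Bdd N w ∧ (∀ j, w j ≠ 0) ∧
        f x = q U ℚ (fun j => (z j : ℚ) / (w j : ℚ))) := by
  refine ⟨KK U N hN, inferInstance, (KK U N hN).subtype, ?_, ?_⟩
  · intro z hz
    refine ⟨⟨q U ℚ (fun j => (z j : ℚ)), z, fun _ => 1, hz, bdd_one N, fun _ => one_ne_zero, ?_⟩,
      rfl⟩
    congr 1
    funext j
    simp
  · rintro ⟨x, z, w, hz, hw, h0, rfl⟩
    exact ⟨z, w, hz, hw, h0, rfl⟩

end Pool.Agent.Lib.MPb0e841.UN
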