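import Mathlib

/-! Number fields generated by roots of integer polynomials with small coefficients. -/

namespace Pool.Agent.Lib.MPb0e841.UN

open Filter NumberField Polynomial IntermediateField

theorem root_bound (P : Polynomial ℤ) (hP : P ≠ 0) (B : ℝ) (hB : 1 ≤ B)
    (hc : ∀ j, (|P.coeff j| : ℝ) ≤ B) (z : ℂ) (hz : Polynomial.aeval z P = 0) : ‖z‖ ≤ 1 + B := by
  obtain ⟨Q, hQ⟩ : ∃ Q : Polynomial ℂ, Q = P.map (Int.castRingHom ℂ) := ⟨_, rfl⟩
  have hinj : Function.Injective (Int.castRingHom ℂ) := RingHom.injective_int _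
  have hQ0 : Q ≠ 0 := by rw [hQ]; exact (Polynomial.map_ne_zero_iff hinj).2 hP
  have hroot : Q.IsRoot z := by
    rw [hQ, Polynomial.IsRoot, Polynomial.eval_map, ← hz, Polynomial.aeval_def]
    rfl
  have h1 := hroot.norm_lt_cauchyBound hQ0
  have hcoeff : ∀ j, ‖Q.coeff j‖ ≤ B := by
    intro j
    rw [hQ, Polynomial.coeff_map]
    have : ‖(Int.castRingHom ℂ) (P.coeff j)‖ = |(P.coeff j : ℝ)| := by
      simp
    rw [this]
    exact_mod_cast hc j
  have hlead : 1 ≤ ‖Q.leadingCoeff‖ := by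
    rw [hQ, Polynomial.leadingCoeff_map_of_injective hinj]
    have h2 : ‖(Int.castRingHom ℂ) P.leadingCoeff‖ = |(P.leadingCoeff : ℝ)| := by
      simp
    rw [h2]
    have h3 : 1 ≤ |P.leadingCoeff| := Int.one_le_abs (Polynomial.leadingCoeff_ne_zero.2 hP)
    exact_mod_cast h3
  have h4 : (Polynomial.cauchyBound Q : ℝ) ≤ 1 + B := by
    unfold Polynomial.cauchyBound
    push_cast
    rw [add_comm]
    apply add_le_add_right
    have hsup : (((Finset.range Q.natDegree).sup (fun x => ‖Q.coeff x‖₊) : NNReal) : ℝ) ≤ B := by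
      have hB0 : 0 ≤ B := by linarith
      have : (Finset.range Q.natDegree).sup (fun x => ‖Q.coeff x‖₊) ≤ ⟨B, hB0⟩ := by
        apply Finset.sup_le
        intro j _
        exact hcoeff j
      exact_mod_cast this
    have hpos : (0 : ℝ) < ‖Q.leadingCoeff‖ := by linarith
    rw [div_le_iff₀ hpos]
    nlinarith
  linarith

theorem integral_of_root (a : AlgebraicClosure ℚ) (P : Polynomial ℤ) (h0 : P ≠ 0)
    (hr : Polynomial.aeval a P = 0) :
    IsIntegral ℚ a ∧ Polynomial.aeval a (P.map (Int.castRingHom ℚ)) = 0 := by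
  have hinj : Function.Injective (Int.castRingHom ℚ) := RingHom.injective_int _
  have h1 : Polynomial.aeval a (P.map (Int.castRingHom ℚ)) = 0 := by
    rw [← hr, Polynomial.aeval_def, Polynomial.aeval_def, Polynomial.eval₂_map]
    congr 1
  exact ⟨isAlgebraic_iff_isIntegral.1 ⟨_, (Polynomial.map_ne_zero_iff hinj).2 h0, h1⟩, h1⟩

theorem finrank_bound {J : Type} [Fintype J] (d : ℕ) (h : J → AlgebraicClosure ℚ)
    (P : J → Polynomial ℤ) (h0 : ∀ i, P i ≠ 0) (hd : ∀ i, (P i).natDegree ≤ d)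
    (hr : ∀ i, Polynomial.aeval (h i) (P i) = 0) (s : Finset J) :
    Module.finrank ℚ (IntermediateField.adjoin ℚ (h '' (s : Set J))) ≤ d ^ s.card := by
  classical
  induction s using Finset.induction_on with
  | empty =>
    rw [Finset.coe_empty, Set.image_empty, IntermediateField.adjoin_empty]
    simp
  | insert a s ha ih =>
    rw [Finset.card_insert_of_notMem ha, pow_succ']
    have e : IntermediateField.adjoin ℚ (h '' ((insert a s : Finset J) : Set J)) =
        IntermediateField.adjoin ℚ {h a} ⊔ IntermediateField.adjoin ℚ (h '' (s : Set J)) := by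
      rw [← IntermediateField.adjoin_union]
      congr 1
      rw [Finset.coe_insert, Set.image_insert_eq]
      rfl
    rw [e]
    refine (IntermediateField.finrank_sup_le _ _).trans ?_
    apply Nat.mul_le_mul _ ih
    obtain ⟨hint, h1⟩ := integral_of_root (h a) (P a) (h0 a) (hr a)
    rw [IntermediateField.adjoin.finrank hint]
    have hinj : Function.Injective (Int.castRingHom ℚ) := RingHom.injective_int _
    have h2 := Polynomial.natDegree_le_of_dvd (minpoly.dvd ℚ (h a) h1)
      ((Polynomial.map_ne_zero_iff hinj).2 (h0 a))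
    rw [Polynomial.natDegree_map_eq_of_injective hinj] at h2
    exact h2.trans (hd a)

theorem exists_nf {J : Type} [Fintype J] (d : ℕ) (B : ℝ) (hB : 1 ≤ B)
    (h : J → AlgebraicClosure ℚ) (P : J → Polynomial ℤ) (h0 : ∀ i, P i ≠ 0)
    (hd : ∀ i, (P i).natDegree ≤ d) (hc : ∀ i j, (|(P i).coeff j| : ℝ) ≤ B)
    (hr : ∀ i, Polynomial.aeval (h i) (P i) = 0) :
    ∃ (K : Type) (_ : Field K) (_ : NumberField K) (ι : K →+* AlgebraicClosure ℚ) (β : ℤ)
      (g : J → 𝓞 K),
      β ≠ 0 ∧ Module.finrank ℚ K ≤ d ^ Fintype.card J ∧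
      (∀ i, ι (g i : K) = (β : AlgebraicClosure ℚ) * h i) ∧
      ∀ i, ∀ φ : K →+* ℂ, ‖φ (g i : K)‖ ≤ B ^ Fintype.card J * (1 + B) := by
  classical
  obtain ⟨K, hK⟩ : ∃ K : IntermediateField ℚ (AlgebraicClosure ℚ),
      K = IntermediateField.adjoin ℚ (Set.range h) := ⟨_, rfl⟩
  have hfd : FiniteDimensional ℚ K := by
    rw [hK]
    have : Finite (Set.range h) := Set.finite_range h
    exact IntermediateField.finiteDimensional_adjoin
      (fun x hx => by
        obtain ⟨i, rfl⟩ := hx
        exact (integral_of_root (h i) (P i) (h0 i) (hr i)).1)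
  have hnf : NumberField K := { to_charZero := inferInstance, to_finiteDimensional := hfd }
  have hmem : ∀ i, h i ∈ K := by
    intro i
    rw [hK]
    exact IntermediateField.subset_adjoin ℚ _ (Set.mem_range_self i)
  obtain ⟨β, hβ⟩ : ∃ β : ℤ, β = ∏ j, (P j).leadingCoeff := ⟨_, rfl⟩
  have hβ0 : β ≠ 0 := by
    rw [hβ]
    exact Finset.prod_ne_zero_iff.2 (fun j _ => Polynomial.leadingCoeff_ne_zero.2 (h0 j))
  have haev : ∀ i, Polynomial.aeval (⟨h i, hmem i⟩ : K) (P i) = 0 := by
    intro i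
    apply (algebraMap K (AlgebraicClosure ℚ)).injective
    rw [map_zero, ← hr i, ← Polynomial.aeval_algebraMap_apply]
    rfl
  have hint : ∀ i, IsIntegral ℤ ((β : K) * ⟨h i, hmem i⟩) := by
    intro i
    have h1 : IsIntegral ℤ ((P i).leadingCoeff • (⟨h i, hmem i⟩ : K)) :=
      isIntegral_leadingCoeff_smul _ _ (haev i)
    have h2 : (β : K) * ⟨h i, hmem i⟩ =
        (((∏ j ∈ Finset.univ.erase i, (P j).leadingCoeff : ℤ) : K)) *
          ((P i).leadingCoeff • (⟨h i, hmem i⟩ : K)) := by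
      rw [hβ, ← Finset.mul_prod_erase Finset.univ _ (Finset.mem_univ i), zsmul_eq_mul]
      push_cast
      ring
    rw [h2]
    exact (isIntegral_algebraMap (R := ℤ)
      (x := (∏ j ∈ Finset.univ.erase i, (P j).leadingCoeff : ℤ))).mul h1
  refine ⟨K, inferInstance, hnf, algebraMap K (AlgebraicClosure ℚ), β,
    fun i => ⟨(β : K) * ⟨h i, hmem i⟩, hint i⟩, hβ0, ?_, ?_, ?_⟩
  · have := finrank_bound d h P h0 hd hr Finset.univ
    rw [Finset.coe_univ, Set.image_univ, ← hK, Finset.card_univ] at this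
    exact this
  · intro i
    show algebraMap K (AlgebraicClosure ℚ) ((β : K) * ⟨h i, hmem i⟩) = _
    rw [map_mul, map_intCast]
    rfl
  · intro i φ
    show ‖φ ((β : K) * ⟨h i, hmem i⟩)‖ ≤ _
    rw [map_mul, norm_mul, map_intCast]
    have h1 : ‖φ ⟨h i, hmem i⟩‖ ≤ 1 + B := by
      apply root_bound (P i) (h0 i) B hB (hc i)
      have h2 : Polynomial.aeval (φ ⟨h i, hmem i⟩) (P i) = φ (Polynomial.aeval (⟨h i, hmem i⟩ : K) (P i)) := by
        rw [Polynomial.aeval_def, Polynomial.aeval_def, Polynomial.hom_eval₂]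
        congr 1
        exact RingHom.ext_int _ _
      rw [h2, haev i, map_zero]
    have h3 : ‖((β : ℤ) : ℂ)‖ ≤ B ^ Fintype.card J := by
      rw [hβ]
      push_cast
      rw [norm_prod, ← Finset.card_univ, ← Finset.prod_const]
      apply Finset.prod_le_prod
      · intro j _; exact norm_nonneg _
      · intro j _
        have h4 : ‖(((P j).leadingCoeff : ℤ) : ℂ)‖ = |((P j).leadingCoeff : ℝ)| := by simp
        rw [h4]
        exact_mod_cast hc j (P j).natDegree
    exact mul_le_mul h3 h1 (norm_nonneg _) (by positivity)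

end Pool.Agent.Lib.MPb0e841.UN
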