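import Mathlib
import Pool.Agent.Lib.MP_b0e841_co.NF.S2

/-!
Specialization of a finitely generated domain over a field `k` to an algebraically closed field
which is injective on a given finite dimensional subspace.
-/

namespace Pool.Agent.Lib.MPb0e841.UN

open MvPolynomial Pool.Agent.Lib.MPb0e841.NF

lemma exists_dvd_bounded_gen {s : ℕ} {k R : Type} [Field k] [CommRing R] [IsDomain R]
    [Algebra (MvPolynomial (Fin s) k) R] [Module.Finite (MvPolynomial (Fin s) k) R]
    {ι : Type} [Fintype ι] (b : ι → R) :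
    ∃ D : ℕ, ∀ c : ι → k,
      (∑ i, algebraMap (MvPolynomial (Fin s) k) R (C (c i)) * b i) ≠ 0 →
      ∃ h : MvPolynomial (Fin s) k, h ≠ 0 ∧ h.totalDegree ≤ D ∧
        (∑ i, algebraMap (MvPolynomial (Fin s) k) R (C (c i)) * b i) ∣
          algebraMap (MvPolynomial (Fin s) k) R h := by
  classical
  obtain ⟨P, hP⟩ := exists_generic (A := MvPolynomial (Fin s) k) b
  refine ⟨P.support.sup (fun k => (P.coeff k).support.sup
    (fun e => ((P.coeff k).coeff e).totalDegree)), fun c hc => ?_⟩
  obtain ⟨k, hk, hdvd⟩ := hP (fun i => C (c i)) hc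
  refine ⟨_, hk, ?_, hdvd⟩
  have hkS : k ∈ P.support := by
    rw [Polynomial.mem_support_iff]
    intro h0
    rw [h0, map_zero] at hk
    exact hk rfl
  refine le_trans ?_ (Finset.le_sup (f := fun k => (P.coeff k).support.sup
    (fun e => ((P.coeff k).coeff e).totalDegree)) hkS)
  rw [MvPolynomial.eval_eq']
  refine (MvPolynomial.totalDegree_finsetSum _ _).trans (Finset.sup_le (fun e he => ?_))
  refine le_trans ?_ (Finset.le_sup (f := fun e => ((P.coeff k).coeff e).totalDegree) he)
  have h5 : (∏ i, (C (c i) : MvPolynomial (Fin s) _) ^ e i) = C (∏ i, c i ^ e i) := by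
    rw [map_prod]
    exact Finset.prod_congr rfl (fun i _ => (map_pow C (c i) (e i)).symm)
  rw [h5]
  refine (MvPolynomial.totalDegree_mul _ _).trans ?_
  rw [MvPolynomial.totalDegree_C, add_zero]

theorem exists_spec (k Ω : Type) [Field k] [Field Ω] [IsAlgClosed Ω] [Algebra k Ω]
    (hev : ∀ s D : ℕ, ∃ ev : MvPolynomial (Fin s) k →ₐ[k] Ω,
      (∀ i, IsAlgebraic k (ev (MvPolynomial.X i))) ∧
      ∀ p : MvPolynomial (Fin s) k, p ≠ 0 → p.totalDegree ≤ D → ev p ≠ 0)
    (R : Type) [CommRing R] [IsDomain R] [Algebra k R] [Algebra.FiniteType k R]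
    {ι : Type} [Fintype ι] (b : ι → R) :
    ∃ ψ : R →ₐ[k] Ω, (∀ x, IsAlgebraic k (ψ x)) ∧
      ∀ c : ι → k, (∑ i, c i • b i) ≠ 0 → ψ (∑ i, c i • b i) ≠ 0 := by
  obtain ⟨s, g, ginj, gfin⟩ := exists_finite_inj_algHom_of_fg k R
  let alg : Algebra (MvPolynomial (Fin s) k) R := g.toRingHom.toAlgebra
  have mf : Module.Finite (MvPolynomial (Fin s) k) R := gfin
  have tow : IsScalarTower k (MvPolynomial (Fin s) k) R :=
    IsScalarTower.of_algebraMap_eq (fun x => (g.commutes x).symm)
  obtain ⟨D, hD⟩ := exists_dvd_bounded_gen (s := s) (k := k) (R := R) b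
  obtain ⟨ev, hevalg, hev⟩ := hev s D
  have hprime : (RingHom.ker ev).IsPrime := RingHom.ker_isPrime ev
  have hint : (g : MvPolynomial (Fin s) k →+* R).IsIntegral := gfin.to_isIntegral
  have hAint : Algebra.IsIntegral (MvPolynomial (Fin s) k) R := ⟨fun x => hint x⟩
  obtain ⟨Q, hQ, hc⟩ := Ideal.exists_ideal_over_prime_of_isIntegral_of_isDomain
    (S := R) (RingHom.ker ev) (by
      have : RingHom.ker (algebraMap (MvPolynomial (Fin s) k) R) = ⊥ :=
        (RingHom.injective_iff_ker_eq_bot _).mp ginj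
      rw [this]; exact bot_le)
  -- all values of ev are algebraic
  have hevall : ∀ p, IsAlgebraic k (ev p) := by
    intro p
    induction p using MvPolynomial.induction_on with
    | C a =>
      have : ev (C a) = algebraMap k Ω a := by
        rw [← MvPolynomial.algebraMap_eq]; exact ev.commutes a
      rw [this]
      exact isAlgebraic_algebraMap a
    | add p q hp hq => rw [map_add]; exact hp.add hq
    | mul_X p i hp => rw [map_mul]; exact hp.mul (hevalg i)
  set P := RingHom.ker ev with hP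
  have domA : IsDomain (MvPolynomial (Fin s) k ⧸ P) := Ideal.Quotient.isDomain P
  have domR : IsDomain (R ⧸ Q) := Ideal.Quotient.isDomain Q
  let j : MvPolynomial (Fin s) k ⧸ P →+* Ω := RingHom.kerLift (ev : MvPolynomial (Fin s) k →+* Ω)
  have hj : Function.Injective j := RingHom.kerLift_injective _
  let algj : Algebra (MvPolynomial (Fin s) k ⧸ P) Ω := j.toAlgebra
  let algq : Algebra (MvPolynomial (Fin s) k ⧸ P) (R ⧸ Q) :=
    (Ideal.quotientMap Q (algebraMap (MvPolynomial (Fin s) k) R) hc.ge).toAlgebra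
  have hqinj : Function.Injective (algebraMap (MvPolynomial (Fin s) k ⧸ P) (R ⧸ Q)) :=
    Ideal.quotientMap_injective' (H := hc.ge) hc.le
  have tf1 : Module.IsTorsionFree (MvPolynomial (Fin s) k ⧸ P) Ω := by
    rw [Module.isTorsionFree_iff_faithfulSMul]
    exact (faithfulSMul_iff_algebraMap_injective _ _).mpr hj
  have tf2 : Module.IsTorsionFree (MvPolynomial (Fin s) k ⧸ P) (R ⧸ Q) := by
    rw [Module.isTorsionFree_iff_faithfulSMul]
    exact (faithfulSMul_iff_algebraMap_injective _ _).mpr hqinj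
  have hqint : Algebra.IsIntegral (MvPolynomial (Fin s) k ⧸ P) (R ⧸ Q) := by
    refine ⟨fun y => ?_⟩
    obtain ⟨x, rfl⟩ := Ideal.Quotient.mk_surjective y
    obtain ⟨p, hp, hp0⟩ := hint x
    refine ⟨p.map (Ideal.Quotient.mk P), hp.map _, ?_⟩
    rw [Polynomial.eval₂_map]
    have : (algebraMap (MvPolynomial (Fin s) k ⧸ P) (R ⧸ Q)).comp (Ideal.Quotient.mk P)
        = (Ideal.Quotient.mk Q).comp (g : MvPolynomial (Fin s) k →+* R) := by
      apply RingHom.ext
      intro a
      rfl
    rw [this, ← Polynomial.hom_eval₂, hp0, map_zero]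
  have hqalg : Algebra.IsAlgebraic (MvPolynomial (Fin s) k ⧸ P) (R ⧸ Q) := inferInstance
  let lift : R ⧸ Q →ₐ[MvPolynomial (Fin s) k ⧸ P] Ω := IsAlgClosed.lift
  let ψ0 : R →+* Ω := (lift : R ⧸ Q →+* Ω).comp (Ideal.Quotient.mk Q)
  have hψg : ∀ p : MvPolynomial (Fin s) k, ψ0 (g p) = ev p := by
    intro p
    exact lift.commutes (Ideal.Quotient.mk P p)
  have hψk : ∀ x : k, ψ0 (algebraMap k R x) = algebraMap k Ω x := by
    intro x
    rw [← g.commutes x, hψg, ev.commutes]
  refine ⟨{ ψ0 with commutes' := hψk }, ?_, ?_⟩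
  · intro x
    change IsAlgebraic k (ψ0 x)
    have h1 : ∀ p : MvPolynomial (Fin s) k, ev p ∈ integralClosure k Ω := fun p =>
      (hevall p).isIntegral
    let evI : MvPolynomial (Fin s) k →+* integralClosure k Ω :=
      (ev : MvPolynomial (Fin s) k →+* Ω).codRestrict (integralClosure k Ω).toSubring h1
    have h2 : IsIntegral (integralClosure k Ω) (ψ0 x) := by
      obtain ⟨p, hp, hp0⟩ := hint x
      refine ⟨p.map evI, hp.map _, ?_⟩
      rw [Polynomial.eval₂_map]
      have : (algebraMap (integralClosure k Ω) Ω).comp evI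
          = ψ0.comp (g : MvPolynomial (Fin s) k →+* R) := by
        apply RingHom.ext
        intro a
        exact (hψg a).symm
      rw [this, ← Polynomial.hom_eval₂, hp0, map_zero]
    exact (isIntegral_trans (R := k) (A := integralClosure k Ω) (ψ0 x) h2).isAlgebraic
  · intro c hne h0
    change ψ0 (∑ i, c i • b i) = 0 at h0
    have hcast : ∑ i, algebraMap (MvPolynomial (Fin s) k) R (C (c i)) * b i
        = ∑ i, c i • b i := by
      apply Finset.sum_congr rfl
      intro i _
      rw [Algebra.smul_def]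
      congr 1
      exact g.commutes (c i)
    obtain ⟨h, hh0, hhD, hdvd⟩ := hD c (by rw [hcast]; exact hne)
    rw [hcast] at hdvd
    apply hev h hh0 hhD
    rw [← hψg h]
    obtain ⟨r, hr⟩ := hdvd
    have h1 : g h = (∑ i, c i • b i) * r := hr
    rw [h1, map_mul, h0, zero_mul]

end Pool.Agent.Lib.MPb0e841.UN
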