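import Mathlib
import Pool.Agent.Lib.MP_b0e841_co.UN.AC
import Pool.Agent.Lib.MP_b0e841_co.UN.H1
import Pool.Agent.Lib.MP_b0e841_co.UN.KK
import Pool.Agent.Lib.MP_b0e841_co.UN.N1
import Pool.Agent.Lib.MP_b0e841_co.UN.F1
import Pool.Agent.Lib.MP_b0e841_co.UN.S3
import Pool.Agent.Lib.MP_b0e841_co.UN.B6
import Pool.Agent.Lib.MP_b0e841_co.NF.General

/-!
Uniform transfer from `ℂ` to number fields (ultrapower argument).
-/

namespace Pool.Agent.Lib.MPb0e841.UN

open Filter NumberField Pool.Agent.Lib.MPb0e841.NF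

/-- The combination `∑ x_i h_i` in a commutative ring. -/
def comb {F : Type} [CommRing F] {k : ℕ} (h : Fin k → F) (x : Fin k → ℤ) : F :=
  ∑ i, (x i : F) * h i

/-- The relation between two triangles with equal circumradius. -/
def Rel {F : Type} [CommRing F] (a a' b b' c c' d d' : F) : Prop :=
  a * a' * (b * b') * ((b - a) * (b' - a')) * (-(c * d' - c' * d) ^ 2)
    = (-(a * b' - a' * b) ^ 2) * (c * c' * (d * d') * ((d - c) * (d' - c')))

/-- The transfer property between complex data `e` and data `h, h'` in a commutative ring, for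
integer vectors of size at most `M`. -/
def Tr {F : Type} [CommRing F] {k : ℕ} (M : ℕ) (e : Fin k → ℂ) (h h' : Fin k → F) : Prop :=
  (∀ x : Fin k → ℤ, (∀ i, |x i| ≤ (M : ℤ)) → cv e x ≠ 0 → comb h x ≠ 0) ∧
  (∀ x : Fin k → ℤ, (∀ i, |x i| ≤ (M : ℤ)) → cv e x ≠ 0 → comb h' x ≠ 0) ∧
  (∀ x y : Fin k → ℤ, (∀ i, |x i| ≤ (M : ℤ)) → (∀ i, |y i| ≤ (M : ℤ)) →
    cv e x * (starRingEnd ℂ) (cv e y) - (starRingEnd ℂ) (cv e x) * cv e y ≠ 0 →
    comb h x * comb h' y - comb h' x * comb h y ≠ 0) ∧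
  (∀ x y z t : Fin k → ℤ, (∀ i, |x i| ≤ (M : ℤ)) → (∀ i, |y i| ≤ (M : ℤ)) →
    (∀ i, |z i| ≤ (M : ℤ)) → (∀ i, |t i| ≤ (M : ℤ)) →
    Rel (cv e x) ((starRingEnd ℂ) (cv e x)) (cv e y) ((starRingEnd ℂ) (cv e y))
      (cv e z) ((starRingEnd ℂ) (cv e z)) (cv e t) ((starRingEnd ℂ) (cv e t)) →
    Rel (comb h x) (comb h' x) (comb h y) (comb h' y) (comb h z) (comb h' z) (comb h t)
      (comb h' t))

lemma Rel.map {F G : Type} [CommRing F] [CommRing G] (φ : F →+* G)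
    {a a' b b' c c' d d' : F} (hr : Rel a a' b b' c c' d d') :
    Rel (φ a) (φ a') (φ b) (φ b') (φ c) (φ c') (φ d) (φ d') := by
  have h := congrArg φ hr
  simp only [map_mul, map_sub, map_neg, map_pow] at h
  exact h

lemma Rel.of_map {F G : Type} [CommRing F] [CommRing G] (φ : F →+* G)
    (hφ : Function.Injective φ) {a a' b b' c c' d d' : F}
    (hr : Rel (φ a) (φ a') (φ b) (φ b') (φ c) (φ c') (φ d) (φ d')) :
    Rel a a' b b' c c' d d' := by
  apply hφ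
  simp only [map_mul, map_sub, map_neg, map_pow]
  exact hr

/-- `Rel` is homogeneous. -/
lemma Rel.smul {F : Type} [CommRing F] (β : F) {a a' b b' c c' d d' : F}
    (hr : Rel a a' b b' c c' d d') :
    Rel (β * a) (β * a') (β * b) (β * b') (β * c) (β * c') (β * d) (β * d') := by
  unfold Rel at hr ⊢
  linear_combination (β ^ 10) * hr

lemma comb_q (U : Ultrafilter ℕ) {A : Type} [CommRing A] {k : ℕ} (x : ℕ → Fin k → ℤ)
    (h : ℕ → Fin k → A) :
    ∑ i, q U A (fun j => ((x j i : ℤ) : A)) * q U A (fun j => h j i)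
      = q U A (fun j => comb (h j) (x j)) := by
  simp only [← map_mul, ← map_sum]
  congr 1
  funext j
  simp [comb, Finset.sum_apply]

lemma select {T : Type} (U : Ultrafilter ℕ) (good bad : ℕ → T → Prop)
    (hd : ∀ j, ∃ t, good j t)
    (H : ∀ s : ℕ → T, (∀ j, good j (s j)) → ¬ ∀ᶠ j in (U : Filter ℕ), bad j (s j)) :
    ∀ᶠ j in (U : Filter ℕ), ∀ t, good j t → ¬ bad j t := by
  classical
  by_contra hcon
  rw [← Ultrafilter.eventually_not] at hcon
  have h1 : ∀ j, ∃ t, good j t ∧ ((¬ ∀ t, good j t → ¬ bad j t) → bad j t) := by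
    intro j
    by_cases hj : ∀ t, good j t → ¬ bad j t
    · obtain ⟨t, ht⟩ := hd j
      exact ⟨t, ht, fun h => absurd hj h⟩
    · have hj' := hj
      push Not at hj'
      obtain ⟨t, ht1, ht2⟩ := hj'
      exact ⟨t, ht1, fun _ => ht2⟩
  choose s hs1 hs2 using h1
  exact H s hs1 (hcon.mono (fun j hj => hs2 j hj))

/-- The ultrapower argument. -/
theorem ultra (U : Ultrafilter ℕ) (N : ℕ → ℕ) (hN : ∀ j, 2 ≤ N j) (k : ℕ)
    (e : ℕ → Fin k → ℂ) :
    ∃ (h h' : ℕ → Fin k → AlgebraicClosure ℚ) (C d : ℕ), ∀ᶠ j in (U : Filter ℕ),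
      Tr (4 * N j) (e j) (h j) (h' j) ∧
      (∀ i, ∃ P : Polynomial ℤ, P ≠ 0 ∧ P.natDegree ≤ d ∧
        (∀ l, |P.coeff l| ≤ (N j : ℤ) ^ C) ∧ Polynomial.aeval (h j i) P = 0) ∧
      (∀ i, ∃ P : Polynomial ℤ, P ≠ 0 ∧ P.natDegree ≤ d ∧
        (∀ l, |P.coeff l| ≤ (N j : ℤ) ^ C) ∧ Polynomial.aeval (h' j i) P = 0) := by
  classical
  obtain ⟨kk, fk, f, hz, hk⟩ := exists_KK U N hN
  let algΩ : Algebra kk (Germ (U : Filter ℕ) (AlgebraicClosure ℚ)) :=
    ((germMap U (algebraMap ℚ (AlgebraicClosure ℚ))).comp f).toAlgebra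
  let algC : Algebra kk (Germ (U : Filter ℕ) ℂ) :=
    ((germMap U (algebraMap ℚ ℂ)).comp f).toAlgebra
  have hclosed : IsAlgClosed (Germ (U : Filter ℕ) (AlgebraicClosure ℚ)) := isAlgClosed_germ U
  let E : Fin k → Germ (U : Filter ℕ) ℂ := fun i => q U ℂ (fun j => e j i)
  let E' : Fin k → Germ (U : Filter ℕ) ℂ := fun i => q U ℂ (fun j => (starRingEnd ℂ) (e j i))
  set S : Set (Germ (U : Filter ℕ) ℂ) := Set.range E ∪ Set.range E' with hS
  have hSf : S.Finite := (Set.finite_range _).union (Set.finite_range _)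
  set R := Algebra.adjoin kk S with hR
  have hft : Algebra.FiniteType kk R := Algebra.FiniteType.adjoin_of_finite hSf
  have memR : ∀ x ∈ S, x ∈ R := fun x hx => Algebra.subset_adjoin hx
  let a : Fin k → R := fun i => ⟨E i, memR _ (Or.inl ⟨i, rfl⟩)⟩
  let a' : Fin k → R := fun i => ⟨E' i, memR _ (Or.inr ⟨i, rfl⟩)⟩
  let b : (Fin k ⊕ Fin k) ⊕ (Fin k × Fin k) → R :=
    Sum.elim (Sum.elim a a') (fun ij => a ij.1 * a' ij.2)
  obtain ⟨ψ, hψalg, hψ⟩ := exists_spec kk (Germ (U : Filter ℕ) (AlgebraicClosure ℚ))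
    (exists_ev U kk f (fun _ => rfl)) R b
  -- representatives
  have hrep : ∀ i, ∃ hh : ℕ → AlgebraicClosure ℚ, q U (AlgebraicClosure ℚ) hh = ψ (a i) :=
    fun i => q_surj U _
  have hrep' : ∀ i, ∃ hh : ℕ → AlgebraicClosure ℚ, q U (AlgebraicClosure ℚ) hh = ψ (a' i) :=
    fun i => q_surj U _
  choose hh hhe using hrep
  choose hh' hhe' using hrep'
  -- combinations
  have ψA : ∀ X : Fin k → kk, (∑ i, X i • a i) ≠ 0 → ψ (∑ i, X i • a i) ≠ 0 := by
    intro X hX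
    have h1 := hψ (Sum.elim (Sum.elim X 0) 0)
    simp only [b, Fintype.sum_sum_type, Sum.elim_inl, Sum.elim_inr, Pi.zero_apply,
      zero_smul, Finset.sum_const_zero, add_zero] at h1
    exact h1 hX
  have ψA' : ∀ X : Fin k → kk, (∑ i, X i • a' i) ≠ 0 → ψ (∑ i, X i • a' i) ≠ 0 := by
    intro X hX
    have h1 := hψ (Sum.elim (Sum.elim 0 X) 0)
    simp only [b, Fintype.sum_sum_type, Sum.elim_inl, Sum.elim_inr, Pi.zero_apply,
      zero_smul, Finset.sum_const_zero, add_zero, zero_add] at h1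
    exact h1 hX
  have hAA : ∀ X Y : Fin k → kk,
      (∑ i, X i • a i) * (∑ i, Y i • a' i) - (∑ i, X i • a' i) * (∑ i, Y i • a i)
      = ∑ ij : Fin k × Fin k, (X ij.1 * Y ij.2 - Y ij.1 * X ij.2) • (a ij.1 * a' ij.2) := by
    intro X Y
    have h1 : (∑ i, X i • a i) * (∑ i, Y i • a' i)
        = ∑ i, ∑ j, (X i * Y j) • (a i * a' j) := by
      rw [Finset.sum_mul_sum]
      simp only [smul_mul_smul_comm]
    have h2 : (∑ i, X i • a' i) * (∑ i, Y i • a i)
        = ∑ i, ∑ j, (Y i * X j) • (a i * a' j) := by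
      rw [mul_comm, Finset.sum_mul_sum]
      simp only [smul_mul_smul_comm]
    rw [h1, h2, Fintype.sum_prod_type, ← Finset.sum_sub_distrib]
    apply Finset.sum_congr rfl
    intro i _
    rw [← Finset.sum_sub_distrib]
    apply Finset.sum_congr rfl
    intro j _
    rw [sub_smul]
  have ψD : ∀ X Y : Fin k → kk,
      (∑ i, X i • a i) * (∑ i, Y i • a' i) - (∑ i, X i • a' i) * (∑ i, Y i • a i) ≠ 0 →
      ψ ((∑ i, X i • a i) * (∑ i, Y i • a' i) - (∑ i, X i • a' i) * (∑ i, Y i • a i)) ≠ 0 := by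
    intro X Y hXY
    rw [hAA] at hXY ⊢
    have h1 := hψ (Sum.elim 0 (fun ij => X ij.1 * Y ij.2 - Y ij.1 * X ij.2))
    simp only [b, Fintype.sum_sum_type, Sum.elim_inl, Sum.elim_inr, Pi.zero_apply,
      zero_smul, Finset.sum_const_zero, zero_add] at h1
    exact h1 hXY
  -- the bridge
  have algC_q : ∀ (X : kk) (x : ℕ → ℤ), f X = q U ℚ (fun j => (x j : ℚ)) →
      algebraMap kk (Germ (U : Filter ℕ) ℂ) X = q U ℂ (fun j => ((x j : ℤ) : ℂ)) := by
    intro X x hX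
    change germMap U (algebraMap ℚ ℂ) (f X) = _
    rw [hX, germMap_q]
    congr 1
  have algΩ_q : ∀ (X : kk) (x : ℕ → ℤ), f X = q U ℚ (fun j => (x j : ℚ)) →
      algebraMap kk (Germ (U : Filter ℕ) (AlgebraicClosure ℚ)) X
        = q U (AlgebraicClosure ℚ) (fun j => ((x j : ℤ) : AlgebraicClosure ℚ)) := by
    intro X x hX
    change germMap U (algebraMap ℚ (AlgebraicClosure ℚ)) (f X) = _
    rw [hX, germMap_q]
    congr 1
  have bridgeC : ∀ (x : ℕ → Fin k → ℤ) (X : Fin k → kk),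
      (∀ i, f (X i) = q U ℚ (fun j => (x j i : ℚ))) →
      ((∑ i, X i • a i : R) : Germ (U : Filter ℕ) ℂ) = q U ℂ (fun j => cv (e j) (x j)) := by
    intro x X hX
    have h1 : ((∑ i, X i • a i : R) : Germ (U : Filter ℕ) ℂ)
        = ∑ i, q U ℂ (fun j => ((x j i : ℤ) : ℂ)) * q U ℂ (fun j => e j i) := by
      rw [AddSubmonoidClass.coe_finsetSum]
      apply Finset.sum_congr rfl
      intro i _
      change X i • E i = _
      rw [Algebra.smul_def, algC_q (X i) (fun j => x j i) (hX i)]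
    rw [h1, comb_q U x e]
    rfl
  have bridgeC' : ∀ (x : ℕ → Fin k → ℤ) (X : Fin k → kk),
      (∀ i, f (X i) = q U ℚ (fun j => (x j i : ℚ))) →
      ((∑ i, X i • a' i : R) : Germ (U : Filter ℕ) ℂ)
        = q U ℂ (fun j => (starRingEnd ℂ) (cv (e j) (x j))) := by
    intro x X hX
    have h1 : ((∑ i, X i • a' i : R) : Germ (U : Filter ℕ) ℂ)
        = ∑ i, q U ℂ (fun j => ((x j i : ℤ) : ℂ)) * q U ℂ (fun j => (starRingEnd ℂ) (e j i)) := by
      rw [AddSubmonoidClass.coe_finsetSum]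
      apply Finset.sum_congr rfl
      intro i _
      change X i • E' i = _
      rw [Algebra.smul_def, algC_q (X i) (fun j => x j i) (hX i)]
    rw [h1, comb_q U x (fun j i => (starRingEnd ℂ) (e j i))]
    congr 1
    funext j
    rw [conj_cv]
    rfl
  have bridgeΩ : ∀ (x : ℕ → Fin k → ℤ) (X : Fin k → kk),
      (∀ i, f (X i) = q U ℚ (fun j => (x j i : ℚ))) →
      ψ (∑ i, X i • a i) = q U (AlgebraicClosure ℚ) (fun j => comb (fun i => hh i j) (x j)) := by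
    intro x X hX
    rw [map_sum, ← comb_q U x (fun j i => hh i j)]
    apply Finset.sum_congr rfl
    intro i _
    rw [map_smul, Algebra.smul_def, algΩ_q (X i) (fun j => x j i) (hX i), hhe i]
  have bridgeΩ' : ∀ (x : ℕ → Fin k → ℤ) (X : Fin k → kk),
      (∀ i, f (X i) = q U ℚ (fun j => (x j i : ℚ))) →
      ψ (∑ i, X i • a' i) = q U (AlgebraicClosure ℚ) (fun j => comb (fun i => hh' i j) (x j)) := by
    intro x X hX
    rw [map_sum, ← comb_q U x (fun j i => hh' i j)]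
    apply Finset.sum_congr rfl
    intro i _
    rw [map_smul, Algebra.smul_def, algΩ_q (X i) (fun j => x j i) (hX i), hhe' i]
  -- bounded sequences
  have hbdd : ∀ x : ℕ → Fin k → ℤ, (∀ j i, |x j i| ≤ ((4 * N j : ℕ) : ℤ)) →
      ∃ X : Fin k → kk, ∀ i, f (X i) = q U ℚ (fun j => (x j i : ℚ)) := by
    intro x hx
    have h1 : ∀ i, ∃ X : kk, f X = q U ℚ (fun j => (x j i : ℚ)) := by
      intro i
      apply hz
      refine ⟨3, fun j => (hx j i).trans ?_⟩
      have h2 : (2 : ℤ) ≤ N j := by exact_mod_cast hN j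
      push_cast
      nlinarith [mul_nonneg (by linarith : (0:ℤ) ≤ N j) (by nlinarith : (0:ℤ) ≤ (N j : ℤ) ^ 2 - 4)]
    choose X hX using h1
    exact ⟨X, hX⟩
  -- the algebraic relations
  have hpoly := fun i => exists_poly U N hN kk f (fun _ => rfl) hk (hh i)
    (by rw [hhe i]; exact hψalg _)
  have hpoly' := fun i => exists_poly U N hN kk f (fun _ => rfl) hk (hh' i)
    (by rw [hhe' i]; exact hψalg _)
  choose C1 d1 hP1 using hpoly
  choose C2 d2 hP2 using hpoly'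
  refine ⟨fun j i => hh i j, fun j i => hh' i j, (∑ i, C1 i) + ∑ i, C2 i,
    (∑ i, d1 i) + ∑ i, d2 i, ?_⟩
  have g0 : ∀ j, ∃ t : Fin k → ℤ, ∀ i, |t i| ≤ ((4 * N j : ℕ) : ℤ) := fun j => ⟨0, fun i => by
    simp⟩
  have t1 : ∀ᶠ j in (U : Filter ℕ), ∀ x : Fin k → ℤ, (∀ i, |x i| ≤ ((4 * N j : ℕ) : ℤ)) →
      ¬ (cv (e j) x ≠ 0 ∧ comb (fun i => hh i j) x = 0) := by
    apply select U _ _ g0
    intro s hs hbad
    obtain ⟨X, hX⟩ := hbdd s hs
    have h1 : (∑ i, X i • a i) ≠ 0 := by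
      intro h0
      have h2 := bridgeC s X hX
      rw [h0] at h2
      have h3 := (q_eq_zero_iff U _).mp h2.symm
      obtain ⟨j, hj1, hj2⟩ := (h3.and hbad).exists
      exact hj2.1 hj1
    apply ψA X h1
    rw [bridgeΩ s X hX, q_eq_zero_iff]
    exact hbad.mono (fun j hj => hj.2)
  have t2 : ∀ᶠ j in (U : Filter ℕ), ∀ x : Fin k → ℤ, (∀ i, |x i| ≤ ((4 * N j : ℕ) : ℤ)) →
      ¬ (cv (e j) x ≠ 0 ∧ comb (fun i => hh' i j) x = 0) := by
    apply select U _ _ g0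
    intro s hs hbad
    obtain ⟨X, hX⟩ := hbdd s hs
    have h1 : (∑ i, X i • a' i) ≠ 0 := by
      intro h0
      have h2 := bridgeC' s X hX
      rw [h0] at h2
      have h3 := (q_eq_zero_iff U _).mp h2.symm
      obtain ⟨j, hj1, hj2⟩ := (h3.and hbad).exists
      exact hj2.1 (by simpa using hj1)
    apply ψA' X h1
    rw [bridgeΩ' s X hX, q_eq_zero_iff]
    exact hbad.mono (fun j hj => hj.2)
  have t3 : ∀ᶠ j in (U : Filter ℕ), ∀ xy : (Fin k → ℤ) × (Fin k → ℤ),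
      ((∀ i, |xy.1 i| ≤ ((4 * N j : ℕ) : ℤ)) ∧ (∀ i, |xy.2 i| ≤ ((4 * N j : ℕ) : ℤ))) →
      ¬ (cv (e j) xy.1 * (starRingEnd ℂ) (cv (e j) xy.2)
          - (starRingEnd ℂ) (cv (e j) xy.1) * cv (e j) xy.2 ≠ 0 ∧
        comb (fun i => hh i j) xy.1 * comb (fun i => hh' i j) xy.2
          - comb (fun i => hh' i j) xy.1 * comb (fun i => hh i j) xy.2 = 0) := by
    apply select U _ _ (fun j => ⟨(0, 0), by simp⟩)
    intro s hs hbad
    obtain ⟨X, hX⟩ := hbdd (fun j => (s j).1) (fun j => (hs j).1)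
    obtain ⟨Y, hY⟩ := hbdd (fun j => (s j).2) (fun j => (hs j).2)
    have h1 : (∑ i, X i • a i) * (∑ i, Y i • a' i) - (∑ i, X i • a' i) * (∑ i, Y i • a i)
        ≠ 0 := by
      intro h0
      have h2 : (((∑ i, X i • a i) * (∑ i, Y i • a' i) - (∑ i, X i • a' i) * (∑ i, Y i • a i) : R)
          : Germ (U : Filter ℕ) ℂ) = 0 := by rw [h0]; rfl
      have h2' : ((∑ i, X i • a i : R) : Germ (U : Filter ℕ) ℂ)
          * ((∑ i, Y i • a' i : R) : Germ (U : Filter ℕ) ℂ)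
          - ((∑ i, X i • a' i : R) : Germ (U : Filter ℕ) ℂ)
          * ((∑ i, Y i • a i : R) : Germ (U : Filter ℕ) ℂ) = 0 := h2
      rw [bridgeC _ X hX, bridgeC _ Y hY, bridgeC' _ X hX, bridgeC' _ Y hY, ← map_mul, ← map_mul,
        ← map_sub, q_eq_zero_iff] at h2'
      obtain ⟨j, hj1, hj2⟩ := (h2'.and hbad).exists
      exact hj2.1 hj1
    apply ψD X Y h1
    rw [map_sub, map_mul, map_mul, bridgeΩ _ X hX, bridgeΩ _ Y hY, bridgeΩ' _ X hX,
      bridgeΩ' _ Y hY, ← map_mul, ← map_mul, ← map_sub, q_eq_zero_iff]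
    exact hbad.mono (fun j hj => hj.2)
  have t4 : ∀ᶠ j in (U : Filter ℕ),
      ∀ w : ((Fin k → ℤ) × (Fin k → ℤ)) × ((Fin k → ℤ) × (Fin k → ℤ)),
      ((∀ i, |w.1.1 i| ≤ ((4 * N j : ℕ) : ℤ)) ∧ (∀ i, |w.1.2 i| ≤ ((4 * N j : ℕ) : ℤ)) ∧
        (∀ i, |w.2.1 i| ≤ ((4 * N j : ℕ) : ℤ)) ∧ (∀ i, |w.2.2 i| ≤ ((4 * N j : ℕ) : ℤ))) →
      ¬ (Rel (cv (e j) w.1.1) ((starRingEnd ℂ) (cv (e j) w.1.1)) (cv (e j) w.1.2)
          ((starRingEnd ℂ) (cv (e j) w.1.2)) (cv (e j) w.2.1)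
          ((starRingEnd ℂ) (cv (e j) w.2.1)) (cv (e j) w.2.2)
          ((starRingEnd ℂ) (cv (e j) w.2.2)) ∧
        ¬ Rel (comb (fun i => hh i j) w.1.1) (comb (fun i => hh' i j) w.1.1)
          (comb (fun i => hh i j) w.1.2) (comb (fun i => hh' i j) w.1.2)
          (comb (fun i => hh i j) w.2.1) (comb (fun i => hh' i j) w.2.1)
          (comb (fun i => hh i j) w.2.2) (comb (fun i => hh' i j) w.2.2)) := by
    apply select U _ _ (fun j => ⟨((0, 0), (0, 0)), by simp⟩)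
    intro s hs hbad
    obtain ⟨X, hX⟩ := hbdd (fun j => (s j).1.1) (fun j => (hs j).1)
    obtain ⟨Y, hY⟩ := hbdd (fun j => (s j).1.2) (fun j => (hs j).2.1)
    obtain ⟨Z, hZ⟩ := hbdd (fun j => (s j).2.1) (fun j => (hs j).2.2.1)
    obtain ⟨W, hW⟩ := hbdd (fun j => (s j).2.2) (fun j => (hs j).2.2.2)
    have hrel : Rel (∑ i, X i • a i) (∑ i, X i • a' i) (∑ i, Y i • a i) (∑ i, Y i • a' i)
        (∑ i, Z i • a i) (∑ i, Z i • a' i) (∑ i, W i • a i) (∑ i, W i • a' i) := by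
      apply Rel.of_map (R.val.toRingHom) Subtype.val_injective
      change Rel ((∑ i, X i • a i : R) : Germ (U : Filter ℕ) ℂ)
        ((∑ i, X i • a' i : R) : Germ (U : Filter ℕ) ℂ)
        ((∑ i, Y i • a i : R) : Germ (U : Filter ℕ) ℂ)
        ((∑ i, Y i • a' i : R) : Germ (U : Filter ℕ) ℂ)
        ((∑ i, Z i • a i : R) : Germ (U : Filter ℕ) ℂ)
        ((∑ i, Z i • a' i : R) : Germ (U : Filter ℕ) ℂ)
        ((∑ i, W i • a i : R) : Germ (U : Filter ℕ) ℂ)
        ((∑ i, W i • a' i : R) : Germ (U : Filter ℕ) ℂ)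
      rw [bridgeC _ X hX, bridgeC _ Y hY, bridgeC _ Z hZ, bridgeC _ W hW, bridgeC' _ X hX,
        bridgeC' _ Y hY, bridgeC' _ Z hZ, bridgeC' _ W hW]
      unfold Rel
      simp only [← map_mul, ← map_sub, ← map_neg, ← map_pow]
      rw [q_eq_iff]
      exact hbad.mono (fun j hj => hj.1)
    have h2 := hrel.map (ψ : R →+* Germ (U : Filter ℕ) (AlgebraicClosure ℚ))
    have h3 : Rel (ψ (∑ i, X i • a i)) (ψ (∑ i, X i • a' i)) (ψ (∑ i, Y i • a i))
        (ψ (∑ i, Y i • a' i)) (ψ (∑ i, Z i • a i)) (ψ (∑ i, Z i • a' i)) (ψ (∑ i, W i • a i))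
        (ψ (∑ i, W i • a' i)) := h2
    rw [bridgeΩ _ X hX, bridgeΩ _ Y hY, bridgeΩ _ Z hZ, bridgeΩ _ W hW, bridgeΩ' _ X hX,
        bridgeΩ' _ Y hY, bridgeΩ' _ Z hZ, bridgeΩ' _ W hW] at h3
    unfold Rel at h3
    simp only [← map_mul, ← map_sub, ← map_neg, ← map_pow] at h3
    rw [q_eq_iff] at h3
    obtain ⟨j, hj1, hj2⟩ := (h3.and hbad).exists
    exact hj2.2 hj1
  have hP1' := (Filter.eventually_all (l := (U : Filter ℕ))).mpr hP1
  have hP2' := (Filter.eventually_all (l := (U : Filter ℕ))).mpr hP2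
  filter_upwards [t1, t2, t3, t4, hP1', hP2'] with j j1 j2 j3 j4 j5 j6
  have hNj : (1 : ℤ) ≤ N j := by
    have := hN j
    exact_mod_cast (by omega : 1 ≤ N j)
  refine ⟨⟨?_, ?_, ?_, ?_⟩, ?_, ?_⟩
  · intro x hx hne h0
    exact j1 x hx ⟨hne, h0⟩
  · intro x hx hne h0
    exact j2 x hx ⟨hne, h0⟩
  · intro x y hx hy hne h0
    exact j3 (x, y) ⟨hx, hy⟩ ⟨hne, h0⟩
  · intro x y z t hx hy hz ht hr
    by_contra hcon
    exact j4 ((x, y), (z, t)) ⟨hx, hy, hz, ht⟩ ⟨hr, hcon⟩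
  · intro i
    obtain ⟨P, p0, pd, pc, pr⟩ := j5 i
    refine ⟨P, p0, pd.trans ?_, fun l => (pc l).trans ?_, pr⟩
    · exact (Finset.single_le_sum (f := d1) (fun _ _ => Nat.zero_le _) (Finset.mem_univ i)).trans
        (Nat.le_add_right _ _)
    · exact pow_le_pow_right₀ hNj ((Finset.single_le_sum (f := C1) (fun _ _ => Nat.zero_le _)
        (Finset.mem_univ i)).trans (Nat.le_add_right _ _))
  · intro i
    obtain ⟨P, p0, pd, pc, pr⟩ := j6 i
    refine ⟨P, p0, pd.trans ?_, fun l => (pc l).trans ?_, pr⟩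
    · exact (Finset.single_le_sum (f := d2) (fun _ _ => Nat.zero_le _) (Finset.mem_univ i)).trans
        (Nat.le_add_left _ _)
    · exact pow_le_pow_right₀ hNj ((Finset.single_le_sum (f := C2) (fun _ _ => Nat.zero_le _)
        (Finset.mem_univ i)).trans (Nat.le_add_left _ _))

lemma Tr.of_field {k : ℕ} {M : ℕ} {e : Fin k → ℂ} {h h' : Fin k → AlgebraicClosure ℚ}
    (hT : Tr M e h h') {K : Type} [Field K] [NumberField K] (ι : K →+* AlgebraicClosure ℚ)
    {β : ℤ} (hβ : β ≠ 0) {g g' : Fin k → 𝓞 K}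
    (hg : ∀ i, ι (g i : K) = (β : AlgebraicClosure ℚ) * h i)
    (hg' : ∀ i, ι (g' i : K) = (β : AlgebraicClosure ℚ) * h' i) : Tr M e g g' := by
  let φ : 𝓞 K →+* AlgebraicClosure ℚ := ι.comp (algebraMap (𝓞 K) K)
  have hφ : Function.Injective φ := ι.injective.comp (RingOfIntegers.coe_injective)
  have hβ' : (β : AlgebraicClosure ℚ) ≠ 0 := by exact_mod_cast hβ
  have c1 : ∀ x : Fin k → ℤ, φ (comb g x) = (β : AlgebraicClosure ℚ) * comb h x := by
    intro x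
    unfold comb
    rw [map_sum, Finset.mul_sum]
    apply Finset.sum_congr rfl
    intro i _
    rw [map_mul, map_intCast]
    change _ * ι (g i : K) = _
    rw [hg]; ring
  have c2 : ∀ x : Fin k → ℤ, φ (comb g' x) = (β : AlgebraicClosure ℚ) * comb h' x := by
    intro x
    unfold comb
    rw [map_sum, Finset.mul_sum]
    apply Finset.sum_congr rfl
    intro i _
    rw [map_mul, map_intCast]
    change _ * ι (g' i : K) = _
    rw [hg']; ring
  obtain ⟨T1, T2, T3, T4⟩ := hT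
  refine ⟨?_, ?_, ?_, ?_⟩
  · intro x hx hne h0
    apply T1 x hx hne
    have h1 := c1 x
    rw [h0, map_zero] at h1
    exact (mul_eq_zero.mp h1.symm).resolve_left hβ'
  · intro x hx hne h0
    apply T2 x hx hne
    have h1 := c2 x
    rw [h0, map_zero] at h1
    exact (mul_eq_zero.mp h1.symm).resolve_left hβ'
  · intro x y hx hy hne h0
    apply T3 x y hx hy hne
    have h1 := congrArg φ h0
    rw [map_sub, map_mul, map_mul, c1, c1, c2, c2, map_zero] at h1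
    have h2 : (β : AlgebraicClosure ℚ) ^ 2 * (comb h x * comb h' y - comb h' x * comb h y) = 0 := by
      linear_combination h1
    exact (mul_eq_zero.mp h2).resolve_left (pow_ne_zero 2 hβ')
  · intro x y z t hx hy hz ht hr
    apply Rel.of_map φ hφ
    rw [c1, c1, c1, c1, c2, c2, c2, c2]
    exact (T4 x y z t hx hy hz ht hr).smul _

/-- The uniform transfer from `ℂ` to number fields of bounded degree and height. -/
theorem exists_transfer_unif (k : ℕ) : ∃ D A : ℕ, ∀ N : ℕ, 2 ≤ N → ∀ e : Fin k → ℂ,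
    ∃ (K : Type) (_ : Field K) (_ : NumberField K) (g g' : Fin k → 𝓞 K),
      Module.finrank ℚ K ≤ D ∧ (∀ i, ∀ φ : K →+* ℂ, ‖φ (g i : K)‖ ≤ (N : ℝ) ^ A) ∧
      (∀ i, ∀ φ : K →+* ℂ, ‖φ (g' i : K)‖ ≤ (N : ℝ) ^ A) ∧ Tr (4 * N) e g g' := by
  classical
  by_contra hcon
  push Not at hcon
  choose N hN e he using fun j : ℕ => hcon j j
  set U : Ultrafilter ℕ := hyperfilter ℕ with hU
  obtain ⟨h, h', C, d, hev⟩ := ultra U N hN k e
  set c : ℕ := Fintype.card (Fin k ⊕ Fin k) with hc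
  have hlarge : ∀ᶠ j in (U : Filter ℕ), d ^ c + (C * c + C + 1) ≤ j := by
    have h1 : ∀ᶠ j in (atTop : Filter ℕ), d ^ c + (C * c + C + 1) ≤ j := eventually_ge_atTop _
    rw [← Nat.cofinite_eq_atTop] at h1
    exact h1.filter_mono (by rw [hU]; exact hyperfilter_le_cofinite)
  obtain ⟨j, ⟨hT, hP, hP'⟩, hj⟩ := (hev.and hlarge).exists
  choose P1 p10 p1d p1c p1r using hP
  choose P2 p20 p2d p2c p2r using hP'
  have hNr : (2 : ℝ) ≤ N j := by exact_mod_cast hN j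
  have hN1 : (1 : ℝ) ≤ N j := by linarith
  have hB : (1 : ℝ) ≤ (N j : ℝ) ^ C := one_le_pow₀ hN1
  obtain ⟨K, fK, nK, ι, β, g, hβ, hfr, hg, hbd⟩ := exists_nf (J := Fin k ⊕ Fin k) d
    ((N j : ℝ) ^ C) hB (Sum.elim (h j) (h' j)) (Sum.elim P1 P2)
    (by rintro (i | i); exacts [p10 i, p20 i])
    (by rintro (i | i); exacts [p1d i, p2d i])
    (by
      rintro (i | i) l
      · have := p1c i l
        simp only [Sum.elim_inl]
        exact_mod_cast this
      · have := p2c i l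
        simp only [Sum.elim_inr]
        exact_mod_cast this)
    (by rintro (i | i); exacts [p1r i, p2r i])
  have hbound : ((N j : ℝ) ^ C) ^ c * (1 + (N j : ℝ) ^ C) ≤ (N j : ℝ) ^ j := by
    calc ((N j : ℝ) ^ C) ^ c * (1 + (N j : ℝ) ^ C)
        ≤ ((N j : ℝ) ^ C) ^ c * ((N j : ℝ) * (N j : ℝ) ^ C) := by
          apply mul_le_mul_of_nonneg_left _ (by positivity)
          nlinarith
      _ = (N j : ℝ) ^ (C * c + C + 1) := by
          rw [← pow_mul, pow_add, pow_add, pow_one]; ring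
      _ ≤ (N j : ℝ) ^ j := pow_le_pow_right₀ hN1 (by omega)
  refine he j K fK nK (fun i => g (Sum.inl i)) (fun i => g (Sum.inr i))
    (hfr.trans (by rw [← hc]; omega))
    (fun i φ => (hbd _ φ).trans hbound) (fun i φ => (hbd _ φ).trans hbound) ?_
  exact Tr.of_field hT ι hβ (fun i => hg (Sum.inl i)) (fun i => hg (Sum.inr i))

end Pool.Agent.Lib.MPb0e841.UN
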